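import Pool.Agent.Helper82.ScJordan3

/-!
The Jordan type black box for groups of matrices whose eigenvalues are roots of unity of bounded
order.
-/

set_option autoImplicit false

namespace Pool.Agent.Helper82.ScJordan

open Module Polynomial

variable {r : ℕ}

/-- The trace of an element of `H`. -/
noncomputable def tr (H : Subgroup (GL (Fin r) ℂ)) (f : H) : ℂ :=
  Matrix.trace ((f : GL (Fin r) ℂ) : Matrix (Fin r) (Fin r) ℂ)

theorem tr_mul_comm (H : Subgroup (GL (Fin r) ℂ)) (f g : H) : tr H (f * g) = tr H (g * f) := by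
  unfold tr
  have h1 : (((f * g : H) : GL (Fin r) ℂ) : Matrix (Fin r) (Fin r) ℂ) =
      ((f : GL (Fin r) ℂ) : Matrix (Fin r) (Fin r) ℂ) *
        ((g : GL (Fin r) ℂ) : Matrix (Fin r) (Fin r) ℂ) := rfl
  have h2 : (((g * f : H) : GL (Fin r) ℂ) : Matrix (Fin r) (Fin r) ℂ) =
      ((g : GL (Fin r) ℂ) : Matrix (Fin r) (Fin r) ℂ) *
        ((f : GL (Fin r) ℂ) : Matrix (Fin r) (Fin r) ℂ) := rfl
  rw [h1, h2, Matrix.trace_mul_comm]

/-- The elements that do not change the traces. -/
noncomputable def ker0 (H : Subgroup (GL (Fin r) ℂ)) : Subgroup H where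
  carrier := {h | ∀ f, tr H (f * h) = tr H f}
  one_mem' := by intro f; rw [mul_one]
  mul_mem' := by
    intro a b ha hb f
    rw [← mul_assoc, hb, ha]
  inv_mem' := by
    intro a ha f
    have := ha (f * a⁻¹)
    rw [mul_assoc, inv_mul_cancel, mul_one] at this
    exact this.symm

instance ker0_normal (H : Subgroup (GL (Fin r) ℂ)) : (ker0 H).Normal := by
  constructor
  intro n hn g f
  have h1 : tr H (f * (g * n * g⁻¹)) = tr H ((g⁻¹ * f * g) * n) := by
    rw [tr_mul_comm H (g⁻¹ * f * g) n, ← mul_assoc, ← mul_assoc, tr_mul_comm H _ g⁻¹]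
    rw [tr_mul_comm H n]
    congr 1
    group
  rw [h1, hn, tr_mul_comm]
  congr 1
  group

/-- The trace on the quotient. -/
noncomputable def trQ (H : Subgroup (GL (Fin r) ℂ)) : H ⧸ ker0 H → ℂ :=
  Quotient.lift (tr H) (by
    intro a b hab
    have h1 : a⁻¹ * b ∈ ker0 H := QuotientGroup.leftRel_apply.1 hab
    have h2 := h1 a
    rw [mul_inv_cancel_left] at h2
    exact h2.symm)

theorem trQ_mk (H : Subgroup (GL (Fin r) ℂ)) (f : H) :
    trQ H (QuotientGroup.mk f) = tr H f := rfl

/-- Traces of elements of `H` take finitely many values. -/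
theorem finite_tr (H : Subgroup (GL (Fin r) ℂ)) (N : ℕ) (hN : 0 < N)
    (hev : ∀ h ∈ H, ∀ z : ℂ, (h : Matrix (Fin r) (Fin r) ℂ).charpoly.IsRoot z → z ^ N = 1) :
    (Set.range (tr H)).Finite := by
  have hfin : (Set.univ.pi fun _ : Fin r => {z : ℂ | z ^ N = 1}).Finite := by
    apply Set.Finite.pi
    intro _
    have h1 : {z : ℂ | z ^ N = 1} = (Polynomial.nthRootsFinset N (1 : ℂ) : Set ℂ) := by
      ext z
      simp [Polynomial.mem_nthRootsFinset hN]
    rw [h1]
    exact Finset.finite_toSet _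
  refine (hfin.image fun v : Fin r → ℂ => ∑ i, v i).subset ?_
  rintro _ ⟨h, rfl⟩
  set M : Matrix (Fin r) (Fin r) ℂ := ((h : GL (Fin r) ℂ) : Matrix (Fin r) (Fin r) ℂ) with hM
  have hcard : Multiset.card M.charpoly.roots = r := by
    have h1 := IsAlgClosed.splits M.charpoly
    rw [← h1.natDegree_eq_card_roots, Matrix.charpoly_natDegree_eq_dim, Fintype.card_fin]
  obtain ⟨l, hl⟩ : ∃ l : List ℂ, M.charpoly.roots = l := ⟨_, (Multiset.coe_toList _).symm⟩
  have hlen : l.length = r := by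
    rw [hl, Multiset.coe_card] at hcard
    exact hcard
  subst hlen
  refine ⟨l.get, ?_, ?_⟩
  · intro i _
    apply hev h h.2
    have h1 : l.get i ∈ M.charpoly.roots := by
      rw [hl, Multiset.mem_coe]
      exact List.get_mem _ _
    exact Polynomial.isRoot_of_mem_roots h1
  · show ∑ i, l.get i = tr H h
    unfold tr
    rw [← hM, Matrix.trace_eq_sum_roots_charpoly, hl, Multiset.sum_coe]
    exact (List.sum_ofFn (f := l.get)).symm.trans (by rw [List.ofFn_get])

/-- The quotient is finite. -/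
theorem finite_Q (H : Subgroup (GL (Fin r) ℂ)) (N : ℕ) (hN : 0 < N)
    (hev : ∀ h ∈ H, ∀ z : ℂ, (h : Matrix (Fin r) (Fin r) ℂ).charpoly.IsRoot z → z ^ N = 1) :
    Finite (H ⧸ ker0 H) := by
  -- a finite set of elements with the same span
  set S : Set (Matrix (Fin r) (Fin r) ℂ) :=
    Set.range fun h : H => ((h : GL (Fin r) ℂ) : Matrix (Fin r) (Fin r) ℂ) with hS
  have hfg : (Submodule.span ℂ S).FG := IsNoetherian.noetherian _
  rw [Submodule.fg_span_iff_fg_span_finset_subset] at hfg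
  obtain ⟨T, hTS, hT⟩ := hfg
  -- the traces against `T` determine the coset
  have hfinT : (Set.univ.pi fun _ : T => Set.range (tr H)).Finite :=
    Set.Finite.pi fun _ => finite_tr H N hN hev
  have hsurj : ∀ x : T, ∃ h : H, ((h : GL (Fin r) ℂ) : Matrix (Fin r) (Fin r) ℂ) = x :=
    fun x => hTS x.2
  choose e he using hsurj
  let Φ : H ⧸ ker0 H → (T → ℂ) := fun q x => trQ H (QuotientGroup.mk (e x) * q)
  have hinj : Function.Injective Φ := by
    intro a b hab
    induction a using QuotientGroup.induction_on with | H a => ?_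
    induction b using QuotientGroup.induction_on with | H b => ?_
    rw [QuotientGroup.eq]
    -- linear functional vanishing on `T`
    let L : Matrix (Fin r) (Fin r) ℂ →ₗ[ℂ] ℂ :=
      { toFun := fun X => Matrix.trace (X * ((a : GL (Fin r) ℂ) : Matrix (Fin r) (Fin r) ℂ)) -
          Matrix.trace (X * ((b : GL (Fin r) ℂ) : Matrix (Fin r) (Fin r) ℂ))
        map_add' := by intro X Y; simp [add_mul]; ring
        map_smul' := by intro c X; simp; ring }
    have hL : ∀ X ∈ Submodule.span ℂ S, L X = 0 := by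
      intro X hX
      rw [hT] at hX
      have h1 : Submodule.span ℂ (T : Set (Matrix (Fin r) (Fin r) ℂ)) ≤ LinearMap.ker L := by
        rw [Submodule.span_le]
        intro x hx
        have h2 := congrFun hab ⟨x, hx⟩
        rw [SetLike.mem_coe, LinearMap.mem_ker]
        have h3 : tr H (e ⟨x, hx⟩ * a) = tr H (e ⟨x, hx⟩ * b) := h2
        unfold tr at h3
        have h4 : ∀ c : H, (((e ⟨x, hx⟩ * c : H) : GL (Fin r) ℂ) : Matrix (Fin r) (Fin r) ℂ) =
            x * ((c : GL (Fin r) ℂ) : Matrix (Fin r) (Fin r) ℂ) := by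
          intro c
          have h7 : ((e ⟨x, hx⟩ : GL (Fin r) ℂ) : Matrix (Fin r) (Fin r) ℂ) = x := he ⟨x, hx⟩
          show ((e ⟨x, hx⟩ : GL (Fin r) ℂ) : Matrix (Fin r) (Fin r) ℂ) * _ = _
          rw [h7]
        rw [h4, h4] at h3
        exact sub_eq_zero.2 h3
      exact h1 hX
    intro f
    have h5 := hL (((f * a⁻¹ : H) : GL (Fin r) ℂ) : Matrix (Fin r) (Fin r) ℂ)
      (Submodule.subset_span ⟨f * a⁻¹, rfl⟩)
    have h6 : tr H (f * a⁻¹ * a) = tr H (f * a⁻¹ * b) := sub_eq_zero.1 h5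
    rw [inv_mul_cancel_right] at h6
    rw [← mul_assoc, ← h6]
  have hrange : Set.range Φ ⊆ Set.univ.pi fun _ : T => Set.range (tr H) := by
    rintro _ ⟨q, rfl⟩ x _
    induction q using QuotientGroup.induction_on with | H b => ?_
    exact ⟨e x * b, rfl⟩
  have : Finite (Set.range Φ) := (hfinT.subset hrange)
  exact Finite.of_injective (Set.rangeFactorization Φ)
    (fun a b h => hinj (congrArg Subtype.val h))

section rep

variable (H : Subgroup (GL (Fin r) ℂ))

/-- The function `p ↦ tr (p q)` on the quotient. -/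
noncomputable def phi (q : H ⧸ ker0 H) : H ⧸ ker0 H → ℂ := fun p => trQ H (p * q)

/-- The span of the trace functions. -/
noncomputable def VV : Submodule ℂ (H ⧸ ker0 H → ℂ) := Submodule.span ℂ (Set.range (phi H))

/-- Right translation. -/
noncomputable def rt (q : H ⧸ ker0 H) : (H ⧸ ker0 H → ℂ) →ₗ[ℂ] (H ⧸ ker0 H → ℂ) :=
  LinearMap.funLeft ℂ ℂ fun p => p * q

theorem rt_phi (q q' : H ⧸ ker0 H) : rt H q (phi H q') = phi H (q * q') := by
  funext p
  show trQ H (p * q * q') = trQ H (p * (q * q'))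
  rw [mul_assoc]

theorem rt_mem (q : H ⧸ ker0 H) : ∀ F ∈ VV H, rt H q F ∈ VV H := by
  intro F hF
  have h1 : VV H ≤ (VV H).comap (rt H q) := by
    unfold VV
    rw [Submodule.span_le]
    rintro _ ⟨q', rfl⟩
    show rt H q (phi H q') ∈ Submodule.span ℂ (Set.range (phi H))
    rw [rt_phi]
    exact Submodule.subset_span ⟨_, rfl⟩
  exact h1 hF

theorem finrank_VV [Finite (H ⧸ ker0 H)] : finrank ℂ (VV H) ≤ r ^ 2 := by
  -- pull back to `H`
  let π : (H ⧸ ker0 H → ℂ) →ₗ[ℂ] (H → ℂ) :=
    LinearMap.funLeft ℂ ℂ (QuotientGroup.mk : H → H ⧸ ker0 H)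
  have hπ : Function.Injective π :=
    LinearMap.funLeft_injective_of_surjective ℂ ℂ _ QuotientGroup.mk_surjective
  let L : Matrix (Fin r) (Fin r) ℂ →ₗ[ℂ] (H → ℂ) :=
    { toFun := fun X f => Matrix.trace (((f : GL (Fin r) ℂ) : Matrix (Fin r) (Fin r) ℂ) * X)
      map_add' := by intro X Y; funext f; simp [mul_add]
      map_smul' := by intro c X; funext f; simp }
  have hle : (VV H).map π ≤ LinearMap.range L := by
    unfold VV
    rw [Submodule.map_span, Submodule.span_le]
    rintro _ ⟨_, ⟨q, rfl⟩, rfl⟩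
    induction q using QuotientGroup.induction_on with | H b => ?_
    exact ⟨((b : GL (Fin r) ℂ) : Matrix (Fin r) (Fin r) ℂ), rfl⟩
  have h1 : finrank ℂ (VV H) = finrank ℂ ((VV H).map π) :=
    (Submodule.equivMapOfInjective π hπ (VV H)).finrank_eq
  rw [h1]
  calc finrank ℂ ((VV H).map π) ≤ finrank ℂ (LinearMap.range L) := Submodule.finrank_mono hle
    _ ≤ finrank ℂ (Matrix (Fin r) (Fin r) ℂ) := LinearMap.finrank_range_le L
    _ = r ^ 2 := by rw [Module.finrank_matrix]; simp [sq]

/-- The representation of the quotient by right translations, by isometries. -/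
noncomputable def rep [Fintype (H ⧸ ker0 H)] : (H ⧸ ker0 H) →* (VV H →L[ℂ] VV H) where
  toFun q := LinearMap.toContinuousLinearMap ((rt H q).restrict (rt_mem H q))
  map_one' := by
    ext F p
    show (F : H ⧸ ker0 H → ℂ) (p * 1) = (F : H ⧸ ker0 H → ℂ) p
    rw [mul_one]
  map_mul' := by
    intro a b
    ext F p
    show (F : H ⧸ ker0 H → ℂ) (p * (a * b)) = (F : H ⧸ ker0 H → ℂ) (p * a * b)
    rw [mul_assoc]

theorem norm_rep_le [Fintype (H ⧸ ker0 H)] (q : H ⧸ ker0 H) : ‖rep H q‖ ≤ 1 := by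
  refine ContinuousLinearMap.opNorm_le_bound _ zero_le_one fun F => ?_
  rw [one_mul]
  show ‖rt H q (F : H ⧸ ker0 H → ℂ)‖ ≤ ‖(F : H ⧸ ker0 H → ℂ)‖
  rw [pi_norm_le_iff_of_nonneg (norm_nonneg _)]
  intro p
  exact norm_le_pi_norm (F : H ⧸ ker0 H → ℂ) (p * q)

theorem trQ_of_rep_eq_one [Fintype (H ⧸ ker0 H)] (q : H ⧸ ker0 H) (hq : rep H q = 1) :
    trQ H q = trQ H 1 := by
  have h1 : (rep H q ⟨phi H 1, Submodule.subset_span ⟨_, rfl⟩⟩ : H ⧸ ker0 H → ℂ) 1 =
      phi H 1 1 := by rw [hq]; rfl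
  have h2 : (rep H q ⟨phi H 1, Submodule.subset_span ⟨_, rfl⟩⟩ : H ⧸ ker0 H → ℂ) 1 =
      trQ H (1 * q * 1) := rfl
  rw [h2] at h1
  have h3 : phi H 1 1 = trQ H (1 * 1) := rfl
  rw [h3] at h1
  simpa using h1

end rep

/-- A matrix of trace `r` whose eigenvalues are roots of unity is unipotent. -/
theorem charpoly_of_trace (M : Matrix (Fin r) (Fin r) ℂ) (N : ℕ) (hN : 0 < N)
    (hev : ∀ z : ℂ, M.charpoly.IsRoot z → z ^ N = 1) (htr : M.trace = r) :
    M.charpoly = (X - C 1) ^ r := by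
  have hsplit := IsAlgClosed.splits M.charpoly
  have hcard : Multiset.card M.charpoly.roots = r := by
    rw [← hsplit.natDegree_eq_card_roots, Matrix.charpoly_natDegree_eq_dim, Fintype.card_fin]
  have hnorm : ∀ z ∈ M.charpoly.roots, ‖z‖ = 1 := by
    intro z hz
    have h1 := hev z (Polynomial.isRoot_of_mem_roots hz)
    exact Complex.norm_eq_one_of_pow_eq_one h1 hN.ne'
  have hre : ∀ z ∈ M.charpoly.roots, z.re ≤ 1 := by
    intro z hz
    rw [← hnorm z hz]
    exact Complex.re_le_norm z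
  have hsum : (M.charpoly.roots.map fun z => 1 - z.re).sum = 0 := by
    rw [Multiset.sum_map_sub]
    have h1 : (M.charpoly.roots.map fun _ => (1 : ℝ)).sum = r := by simp [hcard]
    have h2 : (M.charpoly.roots.map fun z => z.re).sum = r := by
      have h3 : (M.charpoly.roots.map fun z => z.re).sum = M.charpoly.roots.sum.re := by
        have := (Multiset.sum_hom M.charpoly.roots Complex.reAddGroupHom)
        exact this
      rw [h3, ← Matrix.trace_eq_sum_roots_charpoly, htr]
      simp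
    rw [h1, h2, sub_self]
  have hall : ∀ z ∈ M.charpoly.roots, z = 1 := by
    intro z hz
    have h1 : ∀ x ∈ M.charpoly.roots.map (fun z => 1 - z.re), 0 ≤ x := by
      intro x hx
      obtain ⟨w, hw, rfl⟩ := Multiset.mem_map.1 hx
      have := hre w hw
      linarith
    have h2 := Multiset.all_zero_of_le_zero_le_of_sum_eq_zero h1 hsum (1 - z.re)
      (Multiset.mem_map.2 ⟨z, hz, rfl⟩)
    have h3 : z.re = 1 := by linarith
    have h4 : z.re ^ 2 + z.im ^ 2 = 1 := by
      have h5 := Complex.sq_norm z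
      rw [hnorm z hz, Complex.normSq_apply] at h5
      nlinarith
    have h6 : z.im = 0 := by
      rw [h3] at h4
      have : z.im ^ 2 = 0 := by linarith
      exact pow_eq_zero_iff (two_ne_zero) |>.1 this
    exact Complex.ext (by simp [h3]) (by simp [h6])
  have hroots : M.charpoly.roots = Multiset.replicate r 1 := by
    rw [Multiset.eq_replicate]
    exact ⟨hcard, hall⟩
  rw [hsplit.eq_prod_roots_of_monic (Matrix.charpoly_monic M), hroots]
  simp

/-- The black box: a group of matrices whose eigenvalues are roots of unity of bounded order has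
a normal subgroup of index bounded in terms of the size, with at most `r ^ 2` characters of finite
order whose common kernel consists of unipotent matrices. -/
theorem blackbox (r : ℕ) : ∃ J : ℕ, ∀ H : Subgroup (GL (Fin r) ℂ),
    (∃ N > 0, ∀ h ∈ H, ∀ z : ℂ, (h : Matrix (Fin r) (Fin r) ℂ).charpoly.IsRoot z → z ^ N = 1) →
    ∃ K : Subgroup H, K.Normal ∧ K.index ≠ 0 ∧ K.index ≤ J ∧
      ∃ χ : Fin (r ^ 2) → (K →* ℂˣ), (∀ i k, IsOfFinOrder (χ i k)) ∧
        ∀ k : K, (∀ i, χ i k = 1) →
          (((k : H) : GL (Fin r) ℂ) : Matrix (Fin r) (Fin r) ℂ).charpoly = (X - C 1) ^ r := by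
  refine ⟨5 ^ (2 * (r ^ 2 * r ^ 2)), fun H hH => ?_⟩
  obtain ⟨N, hN, hev⟩ := hH
  haveI := finite_Q H N hN hev
  haveI := Fintype.ofFinite (H ⧸ ker0 H)
  obtain ⟨K, hKn, hK0, hKJ, χ, hχ, hχ1⟩ := jordan_isometric (rep H) (norm_rep_le H) (r ^ 2)
    (finrank_VV H)
  have hsurj : Function.Surjective (QuotientGroup.mk' (ker0 H)) := QuotientGroup.mk'_surjective _
  refine ⟨K.comap (QuotientGroup.mk' (ker0 H)), hKn.comap _, ?_, ?_, ?_⟩
  · rwa [Subgroup.index_comap_of_surjective K hsurj]
  · rwa [Subgroup.index_comap_of_surjective K hsurj]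
  · let π : K.comap (QuotientGroup.mk' (ker0 H)) →* K :=
      ((QuotientGroup.mk' (ker0 H)).comp (Subgroup.subtype _)).codRestrict K fun x => x.2
    refine ⟨fun i => (χ i).comp π, fun i k => hχ i _, fun k hk => ?_⟩
    have h1 := hχ1 (π k) hk
    have h2 := trQ_of_rep_eq_one H _ h1
    have h3 : tr H (k : H) = tr H 1 := h2
    have h4 : tr H 1 = r := by
      unfold tr
      simp
    exact charpoly_of_trace _ N hN (hev _ (k : H).2) (h3.trans h4)

end Pool.Agent.Helper82.ScJordan
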