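import Pool.Agent.Helper82.ScJordan

/-!
The Jordan type black box with the explicit bound `5 ^ (2 r ^ 2)` on the index.
-/

set_option autoImplicit false

namespace Pool.Agent.Helper82.ScJordan

open Module Polynomial

section span

variable {A : Type*} [NormedRing A] [NormedAlgebra ℝ A] {G : Type*} [Group G] (ρ : G →* A)

/-- The index bound with the dimension of a subspace containing all operators. -/
theorem near_index_span (W : Submodule ℝ A) [FiniteDimensional ℝ W] (hW : ∀ g, ρ g ∈ W)
    (hρ : ∀ g, ‖ρ g‖ ≤ 1) :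
    (near ρ).index ≠ 0 ∧ (near ρ).index ≤ 5 ^ Module.finrank ℝ W := by
  classical
  let w : G → W := fun g => ⟨(2 : ℝ) • ρ g, W.smul_mem _ (hW g)⟩
  have hsep : ∀ g h : G, (g : G ⧸ near ρ) ≠ h → 1 ≤ ‖w g - w h‖ := by
    intro g h hne
    by_contra hlt
    push Not at hlt
    apply hne
    rw [QuotientGroup.eq, near_eq ρ hρ]
    apply Subgroup.subset_closure
    have hlt' : ‖(2 : ℝ) • ρ g - (2 : ℝ) • ρ h‖ < 1 := hlt
    rw [← smul_sub, norm_smul, Real.norm_eq_abs, abs_of_pos (by norm_num : (0 : ℝ) < 2)] at hlt'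
    have h1 : ρ (g⁻¹ * h) - 1 = -(ρ g⁻¹ * (ρ g - ρ h)) := by
      rw [mul_sub, ← map_mul, ← map_mul]; simp
    show ‖ρ (g⁻¹ * h) - 1‖ < 1 / 2
    rw [h1, norm_neg]
    calc ‖ρ g⁻¹ * (ρ g - ρ h)‖ ≤ ‖ρ g⁻¹‖ * ‖ρ g - ρ h‖ := norm_mul_le _ _
      _ ≤ 1 * ‖ρ g - ρ h‖ := by gcongr; exact hρ _
      _ < 1 / 2 := by linarith
  have hnw : ∀ g, ‖w g‖ ≤ 2 := by
    intro g
    show ‖(2 : ℝ) • ρ g‖ ≤ 2
    rw [norm_smul, Real.norm_eq_abs, abs_of_pos (by norm_num : (0 : ℝ) < 2)]
    have := hρ g
    linarith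
  have hcard : ∀ t : Finset (G ⧸ near ρ), t.card ≤ 5 ^ Module.finrank ℝ W := by
    intro t
    have hsep' : ∀ q q' : G ⧸ near ρ, q ≠ q' → 1 ≤ ‖w q.out - w q'.out‖ := by
      intro q q' hqq
      apply hsep
      rw [QuotientGroup.out_eq', QuotientGroup.out_eq']
      exact hqq
    have hinj : Set.InjOn (fun q : G ⧸ near ρ => w q.out) t := by
      intro q _ q' _ hqq
      by_contra hne
      have h1 := hsep' q q' hne
      simp only at hqq
      rw [hqq, sub_self, norm_zero] at h1
      linarith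
    rw [← Finset.card_image_of_injOn hinj]
    apply Besicovitch.card_le_of_separated
    · intro c hc
      obtain ⟨q, _, rfl⟩ := Finset.mem_image.1 hc
      exact hnw _
    · intro c hc d hd hcd
      obtain ⟨q, _, rfl⟩ := Finset.mem_image.1 hc
      obtain ⟨q', _, rfl⟩ := Finset.mem_image.1 hd
      apply hsep'
      rintro rfl
      exact hcd rfl
  have hfin : Finite (G ⧸ near ρ) := by
    by_contra hinf
    rw [not_finite_iff_infinite] at hinf
    obtain ⟨t, ht⟩ := Infinite.exists_subset_card_eq (G ⧸ near ρ) (5 ^ Module.finrank ℝ W + 1)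
    have := hcard t
    omega
  refine ⟨?_, ?_⟩
  · exact Nat.card_ne_zero.2 ⟨⟨((1 : G) : G ⧸ near ρ)⟩, hfin⟩
  · haveI := Fintype.ofFinite (G ⧸ near ρ)
    have := hcard Finset.univ
    rwa [Finset.card_univ, ← Nat.card_eq_fintype_card] at this

end span

theorem jordan_isometric_span {V : Type*} [NormedAddCommGroup V] [NormedSpace ℂ V]
    [FiniteDimensional ℂ V] {G : Type*} [Group G] [Finite G] (ρ : G →* (V →L[ℂ] V))
    (hρ : ∀ g, ‖ρ g‖ ≤ 1) (d e : ℕ) (hd : finrank ℂ V ≤ d)
    (he : finrank ℂ (Submodule.span ℂ (Set.range ρ)) ≤ e) :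
    ∃ K : Subgroup G, K.Normal ∧ K.index ≠ 0 ∧ K.index ≤ 5 ^ (2 * e) ∧
      ∃ χ : Fin d → (K →* ℂˣ), (∀ i k, IsOfFinOrder (χ i k)) ∧
        ∀ k : K, (∀ i, χ i k = 1) → ρ k = 1 := by
  have hfin : (Set.range ρ).Finite := Set.finite_range ρ
  haveI : FiniteDimensional ℂ (V →L[ℂ] V) := inferInstance
  letI : NormedAlgebra ℝ (V →L[ℂ] V) := NormedAlgebra.restrictScalars ℝ ℂ _
  haveI hfd : FiniteDimensional ℝ (V →L[ℂ] V) := FiniteDimensional.complexToReal _
  let W : Submodule ℝ (V →L[ℂ] V) := (Submodule.span ℂ (Set.range ρ)).restrictScalars ℝ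
  haveI : FiniteDimensional ℝ W := inferInstance
  have hdim : finrank ℝ W ≤ 2 * e := by
    have h1 : finrank ℝ (Submodule.span ℂ (Set.range ρ)) =
        2 * finrank ℂ (Submodule.span ℂ (Set.range ρ)) := finrank_real_of_complex _
    have h2 : finrank ℝ W = finrank ℝ (Submodule.span ℂ (Set.range ρ)) := rfl
    rw [h2, h1]
    gcongr
  obtain ⟨h0, hle⟩ := near_index_span (A := V →L[ℂ] V) ρ W
    (fun g => Submodule.subset_span ⟨g, rfl⟩) hρ
  refine ⟨near ρ, inferInstance, h0, hle.trans (Nat.pow_le_pow_right (by norm_num) hdim), ?_⟩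
  let σ : (V →L[ℂ] V) →* Module.End ℂ V :=
    { toFun := fun f => (f : V →ₗ[ℂ] V)
      map_one' := rfl
      map_mul' := fun _ _ => rfl }
  obtain ⟨χ, h1, h2⟩ := exists_chars (K := near ρ) ((σ.comp ρ).comp (near ρ).subtype)
    (fun g h => by
      have := near_commute ρ hρ hfin g.2 h.2
      show σ (ρ g) * σ (ρ h) = σ (ρ h) * σ (ρ g)
      rw [← map_mul, this, map_mul])
    (fun g => by
      refine ⟨orderOf g, orderOf_pos g, ?_⟩
      rw [← map_pow, pow_orderOf_eq_one, map_one]) d hd
  refine ⟨χ, h1, fun k hk => ?_⟩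
  have h3 := h2 k hk
  ext v
  exact congrArg (fun f : Module.End ℂ V => f v) h3

/-- If the kernel of one linear map is contained in the kernel of another one, the ranges compare. -/
theorem finrank_range_le_of_ker {k X Y Z : Type*} [Field k] [AddCommGroup X] [Module k X]
    [AddCommGroup Y] [Module k Y] [AddCommGroup Z] [Module k Z] [FiniteDimensional k Y]
    (f : X →ₗ[k] Y) (g : X →ₗ[k] Z) (h : LinearMap.ker f ≤ LinearMap.ker g) :
    finrank k (LinearMap.range g) ≤ finrank k Y := by
  haveI : FiniteDimensional k (X ⧸ LinearMap.ker f) :=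
    Module.Finite.equiv f.quotKerEquivRange.symm
  have h1 : finrank k (X ⧸ LinearMap.ker g) ≤ finrank k (X ⧸ LinearMap.ker f) := by
    apply LinearMap.finrank_le_finrank_of_surjective (f := Submodule.factor h)
    exact Submodule.factor_surjective h
  calc finrank k (LinearMap.range g) = finrank k (X ⧸ LinearMap.ker g) :=
        g.quotKerEquivRange.finrank_eq.symm
    _ ≤ finrank k (X ⧸ LinearMap.ker f) := h1
    _ = finrank k (LinearMap.range f) := f.quotKerEquivRange.finrank_eq
    _ ≤ finrank k Y := Submodule.finrank_le _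

variable {r : ℕ}

theorem finrank_span_rep (H : Subgroup (GL (Fin r) ℂ)) [Fintype (H ⧸ ker0 H)] :
    finrank ℂ (Submodule.span ℂ (Set.range (rep H))) ≤ r ^ 2 := by
  let v : H → (VV H →L[ℂ] VV H) := fun h => rep H (QuotientGroup.mk h)
  let m : H → Matrix (Fin r) (Fin r) ℂ := fun h => ((h : GL (Fin r) ℂ) : Matrix (Fin r) (Fin r) ℂ)
  have hrange : Set.range (rep H) = Set.range v := by
    ext x
    constructor
    · rintro ⟨q, rfl⟩
      induction q using QuotientGroup.induction_on with | H b => ?_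
      exact ⟨b, rfl⟩
    · rintro ⟨b, rfl⟩
      exact ⟨QuotientGroup.mk b, rfl⟩
  have hker : LinearMap.ker (Finsupp.linearCombination ℂ m) ≤
      LinearMap.ker (Finsupp.linearCombination ℂ v) := by
    intro c hc
    rw [LinearMap.mem_ker, Finsupp.linearCombination_apply] at hc ⊢
    -- the formula for the action
    have hform : ∀ F ∈ VV H, ∀ p : H ⧸ ker0 H,
        (c.sum fun h a => a * F (p * QuotientGroup.mk h)) = 0 := by
      intro F hF
      refine Submodule.span_induction ?_ ?_ ?_ ?_ hF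
      · rintro _ ⟨q, rfl⟩ p
        induction q using QuotientGroup.induction_on with | H k => ?_
        induction p using QuotientGroup.induction_on with | H f => ?_
        have h1 : ∀ h : H, phi H (QuotientGroup.mk k) (QuotientGroup.mk f * QuotientGroup.mk h) =
            Matrix.trace (m f * m h * m k) := fun h => rfl
        simp only [h1]
        have h2 : (c.sum fun h a => a * Matrix.trace (m f * m h * m k)) =
            Matrix.trace (m f * (c.sum fun h a => a • m h) * m k) := by
          rw [Finsupp.sum, Finsupp.sum, Matrix.mul_sum, Matrix.sum_mul, Matrix.trace_sum]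
          refine Finset.sum_congr rfl fun h _ => ?_
          rw [Matrix.mul_smul, Matrix.smul_mul, Matrix.trace_smul, smul_eq_mul]
        rw [h2, hc]
        simp
      · intro p
        simp
      · intro F G _ _ h1 h2 p
        have := congrArg₂ (· + ·) (h1 p) (h2 p)
        simp only [add_zero] at this
        rw [← this, ← Finsupp.sum_add]
        refine Finset.sum_congr rfl fun h _ => ?_
        simp [mul_add]
      · intro a F _ h1 p
        have := congrArg (a * ·) (h1 p)
        simp only [mul_zero] at this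
        rw [← this, Finsupp.mul_sum]
        refine Finset.sum_congr rfl fun h _ => ?_
        simp only [Pi.smul_apply, smul_eq_mul]
        ring
    ext F p
    have h3 := hform F F.2 p
    show (((c.sum fun h a => a • v h) F : VV H) : H ⧸ ker0 H → ℂ) p = 0
    rw [← h3, Finsupp.sum, Finsupp.sum]
    rw [_root_.sum_apply, Submodule.coe_sum, Finset.sum_apply]
    rfl
  have h1 := finrank_range_le_of_ker (Finsupp.linearCombination ℂ m)
    (Finsupp.linearCombination ℂ v) hker
  rw [Finsupp.range_linearCombination] at h1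
  rw [hrange]
  refine h1.trans ?_
  rw [Module.finrank_matrix]
  simp [sq]

/-- The black box with an explicit bound on the index. -/
theorem blackbox_explicit (r : ℕ) (H : Subgroup (GL (Fin r) ℂ))
    (hH : ∃ N > 0, ∀ h ∈ H, ∀ z : ℂ,
      (h : Matrix (Fin r) (Fin r) ℂ).charpoly.IsRoot z → z ^ N = 1) :
    ∃ K : Subgroup H, K.Normal ∧ K.index ≠ 0 ∧ K.index ≤ 5 ^ (2 * r ^ 2) ∧
      ∃ χ : Fin (r ^ 2) → (K →* ℂˣ), (∀ i k, IsOfFinOrder (χ i k)) ∧
        ∀ k : K, (∀ i, χ i k = 1) →
          (((k : H) : GL (Fin r) ℂ) : Matrix (Fin r) (Fin r) ℂ).charpoly = (X - C 1) ^ r := by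
  obtain ⟨N, hN, hev⟩ := hH
  haveI := finite_Q H N hN hev
  haveI := Fintype.ofFinite (H ⧸ ker0 H)
  obtain ⟨K, hKn, hK0, hKJ, χ, hχ, hχ1⟩ := jordan_isometric_span (rep H) (norm_rep_le H) (r ^ 2)
    (r ^ 2) (finrank_VV H) (finrank_span_rep H)
  have hsurj : Function.Surjective (QuotientGroup.mk' (ker0 H)) := QuotientGroup.mk'_surjective _
  refine ⟨K.comap (QuotientGroup.mk' (ker0 H)), hKn.comap _, ?_, ?_, ?_⟩
  · rwa [Subgroup.index_comap_of_surjective K hsurj]
  · rwa [Subgroup.index_comap_of_surjective K hsurj]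
  · let π : K.comap (QuotientGroup.mk' (ker0 H)) →* K :=
      ((QuotientGroup.mk' (ker0 H)).comp (Subgroup.subtype _)).codRestrict K fun x => x.2
    refine ⟨fun i => (χ i).comp π, fun i k => hχ i _, fun k hk => ?_⟩
    have h1 := hχ1 (π k) hk
    have h2 := trQ_of_rep_eq_one H _ h1
    have h3 : tr H (k : H) = tr H 1 := h2
    have h4 : tr H 1 = r := by
      unfold tr
      simp
    exact charpoly_of_trace _ N hN (hev _ (k : H).2) (h3.trans h4)

end Pool.Agent.Helper82.ScJordan
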