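import Mathlib

/-!
# The dynamic logic of information and issues: language, models, schematic validity
-/

set_option autoImplicit false

namespace Pool.Agent.Helper82.InfoIssues

universe u

/-- Formulas of the dynamic language of information and issues. -/
inductive Form : Type
  /-- the proposition letter number `p` -/
  | atom (p : ℕ)
  /-- negation -/
  | neg (φ : Form)
  /-- conjunction -/
  | conj (φ ψ : Form)
  /-- the universal modality `U` -/
  | univ (φ : Form)
  /-- the epistemic modality `K` (quantifies over `sim`-successors) -/
  | know (φ : Form)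
  /-- the issue modality `Q` (quantifies over `app`-successors) -/
  | ques (φ : Form)
  /-- the resolution modality `R` (quantifies over successors for the intersection) -/
  | reso (φ : Form)
  /-- `[!φ]ψ` -/
  | ann (φ ψ : Form)
  /-- `[?φ]ψ` -/
  | ask (φ ψ : Form)
  /-- `[!]φ` -/
  | resolve (φ : Form)
  /-- `[?]φ` -/
  | refine (φ : Form)

/-- Goedel numbering of formulas. -/
def code : Form → ℕ
  | .atom p => 11 * p
  | .neg φ => 11 * code φ + 1
  | .conj φ ψ => 11 * Nat.pair (code φ) (code ψ) + 2
  | .univ φ => 11 * code φ + 3
  | .know φ => 11 * code φ + 4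
  | .ques φ => 11 * code φ + 5
  | .reso φ => 11 * code φ + 6
  | .ann φ ψ => 11 * Nat.pair (code φ) (code ψ) + 7
  | .ask φ ψ => 11 * Nat.pair (code φ) (code ψ) + 8
  | .resolve φ => 11 * code φ + 9
  | .refine φ => 11 * code φ + 10

/-- Epistemic issue models with set of worlds `W`: an epistemic equivalence relation `sim`, an
issue equivalence relation `app` and a valuation of the proposition letters. -/
structure Model (W : Type u) where
  /-- the epistemic relation -/
  sim : Setoid W
  /-- the issue relation -/
  app : Setoid W
  /-- the valuation -/
  val : ℕ → W → Prop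

/-- The relation of giving `A` the same truth value. -/
def agree {W : Type u} (A : W → Prop) : Setoid W where
  r x y := A x ↔ A y
  iseqv := ⟨fun _ => Iff.rfl, fun h => h.symm, fun h k => h.trans k⟩

/-- The update of `M` by the announcement `!φ`, where `A` is the truth set of `φ` in `M`. -/
def Model.announce {W : Type u} (M : Model W) (A : W → Prop) : Model W :=
  { M with sim := M.sim ⊓ agree A }

/-- The update of `M` by the question `?φ`, where `A` is the truth set of `φ` in `M`. -/
def Model.query {W : Type u} (M : Model W) (A : W → Prop) : Model W :=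
  { M with app := M.app ⊓ agree A }

/-- The update of `M` by the resolution action `!`. -/
def Model.resolve {W : Type u} (M : Model W) : Model W := { M with sim := M.sim ⊓ M.app }

/-- The update of `M` by the refinement action `?`. -/
def Model.refine {W : Type u} (M : Model W) : Model W := { M with app := M.sim ⊓ M.app }

/-- Truth of a formula at a world of a model. -/
def Sat {W : Type u} : Form → Model W → W → Prop
  | .atom p, M, w => M.val p w
  | .neg φ, M, w => ¬ Sat φ M w
  | .conj φ ψ, M, w => Sat φ M w ∧ Sat ψ M w
  | .univ φ, M, _ => ∀ v, Sat φ M v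
  | .know φ, M, w => ∀ v, M.sim w v → Sat φ M v
  | .ques φ, M, w => ∀ v, M.app w v → Sat φ M v
  | .reso φ, M, w => ∀ v, (M.sim ⊓ M.app) w v → Sat φ M v
  | .ann φ ψ, M, w => Sat ψ (M.announce (Sat φ M)) w
  | .ask φ ψ, M, w => Sat ψ (M.query (Sat φ M)) w
  | .resolve φ, M, w => Sat φ M.resolve w
  | .refine φ, M, w => Sat φ M.refine w

/-- Uniform substitution of formulas of the dynamic language for the proposition letters. -/
def subst (θ : ℕ → Form) : Form → Form
  | .atom p => θ p
  | .neg φ => .neg (subst θ φ)
  | .conj φ ψ => .conj (subst θ φ) (subst θ ψ)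
  | .univ φ => .univ (subst θ φ)
  | .know φ => .know (subst θ φ)
  | .ques φ => .ques (subst θ φ)
  | .reso φ => .reso (subst θ φ)
  | .ann φ ψ => .ann (subst θ φ) (subst θ ψ)
  | .ask φ ψ => .ask (subst θ φ) (subst θ ψ)
  | .resolve φ => .resolve (subst θ φ)
  | .refine φ => .refine (subst θ φ)

/-- Validity: truth at every world of every epistemic issue model. -/
def Valid (φ : Form) : Prop := ∀ (W : Type u) (M : Model W) (w : W), Sat φ M w

/-- Schematic validity: all substitution instances are valid. -/
def SchematicallyValid (φ : Form) : Prop := ∀ θ : ℕ → Form, Valid.{u} (subst θ φ)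

end Pool.Agent.Helper82.InfoIssues
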