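import Mathlib
import Pool.Agent.Helper82.InfoIssuesDefs

/-!
# Schematic validities of the dynamic logic of information and issues are decidable

Outline of the proof.
1. A formula is schematically valid iff it holds in all finite generalized models, in which the
   meaning of a proposition letter may depend arbitrarily on the current pair of relations
   (finite models: name all worlds by fresh letters and define letters by cases on the pair).
2. Filtration through the truth sets occurring in the evaluation, followed by a twisted product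
   with a finite Boolean group (which makes the intersection of the two equivalence relations
   come out right and separates all pairs of relations that were different), bounds the size of a
   refuting finite generalized model by an explicit function of the formula.
3. The resulting bounded search is primitive recursive.
-/

set_option autoImplicit false

namespace Pool.Agent.Helper82.InfoIssues

universe u v

/-- terms of a small language of arithmetic -/
inductive T where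
  | v (i : ℕ)
  | k (k : ℕ)
  | add (a b : T)
  | mul (a b : T)
  | pow (a b : T)
  | pr (a b : T)
  | p1 (a : T)
  | p2 (a : T)
  | dv (a b : T)
  | md (a b : T)

def T.ev : T → List ℕ → ℕ
  | .v i, e => e.getD i 0
  | .k n, _ => n
  | .add a b, e => a.ev e + b.ev e
  | .mul a b, e => a.ev e * b.ev e
  | .pow a b, e => a.ev e ^ b.ev e
  | .pr a b, e => Nat.pair (a.ev e) (b.ev e)
  | .p1 a, e => (a.ev e).unpair.1
  | .p2 a, e => (a.ev e).unpair.2
  | .dv a b, e => a.ev e / b.ev e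
  | .md a b, e => a.ev e % b.ev e

theorem T.primrec : ∀ t : T, Primrec t.ev
  | .v i => (Primrec.list_getD 0).comp Primrec.id (Primrec.const i)
  | .k n => Primrec.const n
  | .add a b => Primrec.nat_add.comp a.primrec b.primrec
  | .mul a b => Primrec.nat_mul.comp a.primrec b.primrec
  | .pow a b => (Primrec₂.unpaired'.1 Nat.Primrec.pow).comp a.primrec b.primrec
  | .pr a b => Primrec₂.natPair.comp a.primrec b.primrec
  | .p1 a => Primrec.fst.comp (Primrec.unpair.comp a.primrec)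
  | .p2 a => Primrec.snd.comp (Primrec.unpair.comp a.primrec)
  | .dv a b => Primrec.nat_div.comp a.primrec b.primrec
  | .md a b => Primrec.nat_mod.comp a.primrec b.primrec

/-- shift of variables -/
def T.up : T → T
  | .v i => .v (i + 1)
  | .k n => .k n
  | .add a b => .add a.up b.up
  | .mul a b => .mul a.up b.up
  | .pow a b => .pow a.up b.up
  | .pr a b => .pr a.up b.up
  | .p1 a => .p1 a.up
  | .p2 a => .p2 a.up
  | .dv a b => .dv a.up b.up
  | .md a b => .md a.up b.up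

@[simp] theorem T.ev_up (x : ℕ) (e : List ℕ) : ∀ t : T, t.up.ev (x :: e) = t.ev e
  | .v i => by simp [T.up, T.ev]
  | .k n => rfl
  | .add a b => by simp [T.up, T.ev, T.ev_up x e a, T.ev_up x e b]
  | .mul a b => by simp [T.up, T.ev, T.ev_up x e a, T.ev_up x e b]
  | .pow a b => by simp [T.up, T.ev, T.ev_up x e a, T.ev_up x e b]
  | .pr a b => by simp [T.up, T.ev, T.ev_up x e a, T.ev_up x e b]
  | .p1 a => by simp [T.up, T.ev, T.ev_up x e a]
  | .p2 a => by simp [T.up, T.ev, T.ev_up x e a]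
  | .dv a b => by simp [T.up, T.ev, T.ev_up x e a, T.ev_up x e b]
  | .md a b => by simp [T.up, T.ev, T.ev_up x e a, T.ev_up x e b]

/-- formulas with bounded quantifiers -/
inductive B where
  | lt (a b : T)
  | eq (a b : T)
  | not (p : B)
  | and (p q : B)
  | all (t : T) (p : B)

def B.ev : B → List ℕ → Prop
  | .lt a b, e => a.ev e < b.ev e
  | .eq a b, e => a.ev e = b.ev e
  | .not p, e => ¬ p.ev e
  | .and p q, e => p.ev e ∧ q.ev e
  | .all t p, e => ∀ x < t.ev e, p.ev (x :: e)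

theorem B.primrec : ∀ p : B, PrimrecPred p.ev
  | .lt a b => Primrec.nat_lt.comp a.primrec b.primrec
  | .eq a b => Primrec.eq.comp a.primrec b.primrec
  | .not p => p.primrec.not
  | .and p q => p.primrec.and q.primrec
  | .all t p => by
    have h1 : PrimrecRel fun (x : ℕ) (e : List ℕ) => p.ev (x :: e) :=
      p.primrec.comp Primrec.list_cons
    have h2 := h1.forall_mem_list
    have h3 : PrimrecPred fun e : List ℕ => ∀ x ∈ List.range (t.ev e), p.ev (x :: e) :=
      h2.comp (Primrec.list_range.comp t.primrec) Primrec.id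
    refine h3.of_eq fun e => ?_
    simp [B.ev]

def B.imp (p q : B) : B := .not (.and p (.not q))
def B.iff (p q : B) : B := .and (B.imp p q) (B.imp q p)
def B.ex (t : T) (p : B) : B := .not (.all t (.not p))

theorem B.ev_imp (p q : B) (e) : (B.imp p q).ev e ↔ (p.ev e → q.ev e) := by
  simp only [B.imp, B.ev]; tauto
theorem B.ev_iff (p q : B) (e) : (B.iff p q).ev e ↔ (p.ev e ↔ q.ev e) := by
  simp only [B.iff, B.ev, B.ev_imp]; tauto
theorem B.ev_ex (t : T) (p : B) (e) : (B.ex t p).ev e ↔ ∃ x < t.ev e, p.ev (x :: e) := by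
  simp only [B.ex, B.ev, not_forall, not_not, exists_prop]

/-- the `i`-th bit of `z` is one -/
def bit (z i : ℕ) : Prop := z / 2 ^ i % 2 = 1
/-- table lookup -/
def tb (z c s a w : ℕ) : Prop := bit z (Nat.pair c (Nat.pair s (Nat.pair a w)))

def bitB (z i : T) : B := .eq (.md (.dv z (.pow (.k 2) i)) (.k 2)) (.k 1)
def tbB (z c s a w : T) : B := bitB z (.pr c (.pr s (.pr a w)))

theorem ev_bitB (z i : T) (e) : (bitB z i).ev e ↔ bit (z.ev e) (i.ev e) := Iff.rfl
theorem ev_tbB (z c s a w : T) (e) :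
    (tbB z c s a w).ev e ↔ tb (z.ev e) (c.ev e) (s.ev e) (a.ev e) (w.ev e) := Iff.rfl

/-- `t` codes the relation `r` on `m` -/
def Cods (m t : ℕ) (r : ℕ → ℕ → Prop) : Prop :=
  ∀ i < m, ∀ j < m, (bit t (i * m + j) ↔ r i j)

/-- local correctness of the table `z` -/
def Cl (m z c s a w : ℕ) : Prop :=
  (c % 11 = 1 → (tb z c s a w ↔ ¬ tb z (c / 11) s a w)) ∧
  (c % 11 = 2 → (tb z c s a w ↔ tb z (c / 11).unpair.1 s a w ∧ tb z (c / 11).unpair.2 s a w)) ∧
  (c % 11 = 3 → (tb z c s a w ↔ ∀ v < m, tb z (c / 11) s a v)) ∧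
  (c % 11 = 4 → (tb z c s a w ↔ ∀ v < m, bit s (w * m + v) → tb z (c / 11) s a v)) ∧
  (c % 11 = 5 → (tb z c s a w ↔ ∀ v < m, bit a (w * m + v) → tb z (c / 11) s a v)) ∧
  (c % 11 = 6 → (tb z c s a w ↔
    ∀ v < m, bit s (w * m + v) ∧ bit a (w * m + v) → tb z (c / 11) s a v)) ∧
  (c % 11 = 7 → (tb z c s a w ↔ ∃ t < 2 ^ (m * m), (∀ i < m, ∀ j < m, (bit t (i * m + j) ↔
      bit s (i * m + j) ∧
      (tb z (c / 11).unpair.1 s a i ↔ tb z (c / 11).unpair.1 s a j))) ∧
      tb z (c / 11).unpair.2 t a w)) ∧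
  (c % 11 = 8 → (tb z c s a w ↔ ∃ t < 2 ^ (m * m), (∀ i < m, ∀ j < m, (bit t (i * m + j) ↔
      bit a (i * m + j) ∧
      (tb z (c / 11).unpair.1 s a i ↔ tb z (c / 11).unpair.1 s a j))) ∧
      tb z (c / 11).unpair.2 s t w)) ∧
  (c % 11 = 9 → (tb z c s a w ↔ ∃ t < 2 ^ (m * m), (∀ i < m, ∀ j < m, (bit t (i * m + j) ↔
      bit s (i * m + j) ∧ bit a (i * m + j))) ∧ tb z (c / 11) t a w)) ∧
  (c % 11 = 10 → (tb z c s a w ↔ ∃ t < 2 ^ (m * m), (∀ i < m, ∀ j < m, (bit t (i * m + j) ↔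
      bit s (i * m + j) ∧ bit a (i * m + j))) ∧ tb z (c / 11) s t w))

def c11 (c : T) (j : ℕ) (p : B) : B := B.imp (.eq (.md c (.k 11)) (.k j)) p
def h11 (c : T) : T := .dv c (.k 11)

def exT (m : T) (r : B) (q : B) : B :=
  B.ex (.pow (.k 2) (.mul m m)) (.and (.all m.up (.all m.up.up
    (B.iff (bitB (.v 2) (.add (.mul (.v 1) m.up.up.up) (.v 0))) r))) q)

def ClB (m z c s a w : T) : B :=
  .and (c11 c 1 (B.iff (tbB z c s a w) (.not (tbB z (h11 c) s a w)))) <|
  .and (c11 c 2 (B.iff (tbB z c s a w)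
    (.and (tbB z (.p1 (h11 c)) s a w) (tbB z (.p2 (h11 c)) s a w)))) <|
  .and (c11 c 3 (B.iff (tbB z c s a w) (.all m (tbB z.up (h11 c).up s.up a.up (.v 0))))) <|
  .and (c11 c 4 (B.iff (tbB z c s a w) (.all m (B.imp
    (bitB s.up (.add (.mul w.up m.up) (.v 0))) (tbB z.up (h11 c).up s.up a.up (.v 0)))))) <|
  .and (c11 c 5 (B.iff (tbB z c s a w) (.all m (B.imp
    (bitB a.up (.add (.mul w.up m.up) (.v 0))) (tbB z.up (h11 c).up s.up a.up (.v 0)))))) <|
  .and (c11 c 6 (B.iff (tbB z c s a w) (.all m (B.imp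
    (.and (bitB s.up (.add (.mul w.up m.up) (.v 0))) (bitB a.up (.add (.mul w.up m.up) (.v 0))))
    (tbB z.up (h11 c).up s.up a.up (.v 0)))))) <|
  .and (c11 c 7 (B.iff (tbB z c s a w) (exT m
    (.and (bitB s.up.up.up (.add (.mul (.v 1) m.up.up.up) (.v 0)))
      (B.iff (tbB z.up.up.up (.p1 (h11 c).up.up.up) s.up.up.up a.up.up.up (.v 1))
        (tbB z.up.up.up (.p1 (h11 c).up.up.up) s.up.up.up a.up.up.up (.v 0))))
    (tbB z.up (.p2 (h11 c).up) (.v 0) a.up w.up)))) <|
  .and (c11 c 8 (B.iff (tbB z c s a w) (exT m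
    (.and (bitB a.up.up.up (.add (.mul (.v 1) m.up.up.up) (.v 0)))
      (B.iff (tbB z.up.up.up (.p1 (h11 c).up.up.up) s.up.up.up a.up.up.up (.v 1))
        (tbB z.up.up.up (.p1 (h11 c).up.up.up) s.up.up.up a.up.up.up (.v 0))))
    (tbB z.up (.p2 (h11 c).up) s.up (.v 0) w.up)))) <|
  .and (c11 c 9 (B.iff (tbB z c s a w) (exT m
    (.and (bitB s.up.up.up (.add (.mul (.v 1) m.up.up.up) (.v 0)))
      (bitB a.up.up.up (.add (.mul (.v 1) m.up.up.up) (.v 0))))
    (tbB z.up (h11 c).up (.v 0) a.up w.up))))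
  (c11 c 10 (B.iff (tbB z c s a w) (exT m
    (.and (bitB s.up.up.up (.add (.mul (.v 1) m.up.up.up) (.v 0)))
      (bitB a.up.up.up (.add (.mul (.v 1) m.up.up.up) (.v 0))))
    (tbB z.up (h11 c).up s.up (.v 0) w.up))))

theorem ev_ClB (m z c s a w : T) (e : List ℕ) :
    (ClB m z c s a w).ev e ↔ Cl (m.ev e) (z.ev e) (c.ev e) (s.ev e) (a.ev e) (w.ev e) := by
  simp only [ClB, Cl, c11, h11, exT, B.ev, B.ev_iff, B.ev_imp, B.ev_ex, ev_bitB, ev_tbB, T.ev, T.ev_up,
    List.getD_cons_zero, List.getD_cons_succ]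

/-- the number `t` codes an equivalence relation on `m` -/
def EqvC (m t : ℕ) : Prop :=
  (∀ i < m, bit t (i * m + i)) ∧
  (∀ i < m, ∀ j < m, bit t (i * m + j) → bit t (j * m + i)) ∧
  (∀ i < m, ∀ j < m, ∀ l < m, bit t (i * m + j) ∧ bit t (j * m + l) → bit t (i * m + l))

def EqvB (m t : T) : B :=
  .and (.all m (bitB t.up (.add (.mul (.v 0) m.up) (.v 0)))) <|
  .and (.all m (.all m.up (B.imp (bitB t.up.up (.add (.mul (.v 1) m.up.up) (.v 0)))
    (bitB t.up.up (.add (.mul (.v 0) m.up.up) (.v 1))))))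
  (.all m (.all m.up (.all m.up.up (B.imp
    (.and (bitB t.up.up.up (.add (.mul (.v 2) m.up.up.up) (.v 1)))
      (bitB t.up.up.up (.add (.mul (.v 1) m.up.up.up) (.v 0))))
    (bitB t.up.up.up (.add (.mul (.v 2) m.up.up.up) (.v 0)))))))

theorem ev_EqvB (m t : T) (e : List ℕ) : (EqvB m t).ev e ↔ EqvC (m.ev e) (t.ev e) := by
  simp only [EqvB, EqvC, B.ev, B.ev_imp, ev_bitB, T.ev, T.ev_up,
    List.getD_cons_zero, List.getD_cons_succ]

/-- the table `z` is correct for all codes up to `n` over a domain of size `m` -/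
def Corr (n m z : ℕ) : Prop :=
  ∀ c < n + 1, ∀ s < 2 ^ (m * m), ∀ a < 2 ^ (m * m), ∀ w < m, Cl m z c s a w

def CorrB (n m z : T) : B :=
  .all (.add n (.k 1)) <| .all (T.pow (.k 2) (.mul m m)).up <|
  .all (T.pow (.k 2) (.mul m m)).up.up <| .all m.up.up.up <|
  ClB m.up.up.up.up z.up.up.up.up (.v 3) (.v 2) (.v 1) (.v 0)

theorem ev_CorrB (n m z : T) (e : List ℕ) :
    (CorrB n m z).ev e ↔ Corr (n.ev e) (m.ev e) (z.ev e) := by
  simp only [CorrB, Corr, B.ev, ev_ClB, T.ev, T.ev_up, List.getD_cons_zero, List.getD_cons_succ]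

def Kb (n m : ℕ) : ℕ :=
  Nat.pair (n + 1) (Nat.pair (2 ^ (m * m)) (Nat.pair (2 ^ (m * m)) m))

def KbT (n m : T) : T :=
  .pr (.add n (.k 1)) (.pr (.pow (.k 2) (.mul m m)) (.pr (.pow (.k 2) (.mul m m)) m))

/-- bound on the size of models -/
def Bd (n : ℕ) : ℕ := 2 ^ ((n + 1) + 6 * 2 ^ (n + 1) + 2) + 1

def BdT (n : T) : T :=
  .add (.pow (.k 2) (.add (.add (.add n (.k 1)) (.mul (.k 6) (.pow (.k 2) (.add n (.k 1)))))
    (.k 2))) (.k 1)

/-- there is a small certificate of failure -/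
def Bad (n : ℕ) : Prop :=
  ∃ m < Bd n, ∃ z < 2 ^ Kb n m, ∃ s < 2 ^ (m * m), ∃ a < 2 ^ (m * m), ∃ w < m,
    EqvC m s ∧ EqvC m a ∧ Corr n m z ∧ ¬ tb z n s a w

def BadB (n : T) : B :=
  .ex (BdT n) <| .ex (.pow (.k 2) (KbT n.up (.v 0))) <|
  .ex (.pow (.k 2) (.mul (.v 1) (.v 1))) <| .ex (.pow (.k 2) (.mul (.v 2) (.v 2))) <|
  .ex (.v 3) <|
  .and (EqvB (.v 4) (.v 2)) <| .and (EqvB (.v 4) (.v 1)) <|
  .and (CorrB n.up.up.up.up.up (.v 4) (.v 3)) <|
  .not (tbB (.v 3) n.up.up.up.up.up (.v 2) (.v 1) (.v 0))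

theorem ev_BadB (n : T) (e : List ℕ) : (BadB n).ev e ↔ Bad (n.ev e) := by
  simp only [BadB, Bad, BdT, Bd, KbT, Kb, B.ev, B.ev_ex, ev_EqvB, ev_CorrB, ev_tbB, T.ev, T.ev_up,
    List.getD_cons_zero, List.getD_cons_succ]

theorem primrec_Bad : PrimrecPred Bad := by
  have h := (BadB (.v 0)).primrec
  have h2 : PrimrecPred fun n : ℕ => (BadB (.v 0)).ev [n] :=
    h.comp (Primrec.list_cons.comp Primrec.id (Primrec.const []))
  refine h2.of_eq fun n => ?_
  rw [ev_BadB]; simp [T.ev]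



abbrev Rl (W : Type u) := W → W → Prop

/-- agreement of two points on a family of sets -/
def same {W : Type u} (T : Set (W → Prop)) (x y : W) : Prop := ∀ A ∈ T, (A x ↔ A y)

theorem same.symm {W : Type u} {T : Set (W → Prop)} {x y : W} (h : same T x y) : same T y x :=
  fun A hA => (h A hA).symm
theorem same.trans {W : Type u} {T : Set (W → Prop)} {x y z : W} (h : same T x y)
    (k : same T y z) : same T x z :=
  fun A hA => (h A hA).trans (k A hA)
theorem same.mono {W : Type u} {T S : Set (W → Prop)} {x y : W} (h : same T x y)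
    (k : S ⊆ T) : same S x y :=
  fun A hA => h A (k hA)

/-- a frame `X` with two relations simulating a frame `W` with two relations -/
structure Sim {W : Type u} {X : Type v} (T : Set (W → Prop)) (s a : Rl W) (ρ : X → W)
    (s0 a0 : Rl X) : Prop where
  es : Equivalence s0
  ea : Equivalence a0
  sj : ∀ w, ∃ x, same T (ρ x) w
  fs : ∀ x y, s0 x y → ∃ v, s (ρ x) v ∧ same T v (ρ y)
  fa : ∀ x y, a0 x y → ∃ v, a (ρ x) v ∧ same T v (ρ y)
  fr : ∀ x y, s0 x y → a0 x y → ∃ v, (s (ρ x) v ∧ a (ρ x) v) ∧ same T v (ρ y)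
  bs : ∀ x v, s (ρ x) v → ∃ y, s0 x y ∧ same T v (ρ y)
  ba : ∀ x v, a (ρ x) v → ∃ y, a0 x y ∧ same T v (ρ y)
  br : ∀ x v, s (ρ x) v → a (ρ x) v → ∃ y, (s0 x y ∧ a0 x y) ∧ same T v (ρ y)
  ds : ∀ x, ∃ y, s0 x y ∧ ¬ a0 x y ∧ same T (ρ x) (ρ y)
  da : ∀ x, ∃ y, a0 x y ∧ ¬ s0 x y ∧ same T (ρ x) (ρ y)
  ls : ∀ w v, s w v → ∃ x y, s0 x y ∧ same T w (ρ x) ∧ same T v (ρ y)
  la : ∀ w v, a w v → ∃ x y, a0 x y ∧ same T w (ρ x) ∧ same T v (ρ y)
  lr : ∀ w v, s w v → a w v → ∃ x y, (s0 x y ∧ a0 x y) ∧ same T w (ρ x) ∧ same T v (ρ y)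

section frame

variable {W : Type u} (T : Set (W → Prop)) (s a : Rl W)

/-- colours -/
abbrev Col := Set T

def col (w : W) : Col T := {A | A.1 w}

theorem col_eq_iff (x y : W) : col T x = col T y ↔ same T x y := by
  constructor
  · intro h A hA
    have := congrArg (fun c : Col T => (⟨A, hA⟩ : T) ∈ c) h
    simpa [col] using this
  · intro h
    ext A
    exact h A.1 A.2

def prof (r : Rl W) (w : W) : Set (Col T) := {c | ∃ v, r w v ∧ col T v = c}

abbrev Prf := Set (Col T) × Set (Col T) × Set (Col T)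

def prf (w : W) : Prf T := (prof T s w, prof T a w, prof T (fun x y => s x y ∧ a x y) w)

abbrev Ex := Col T × Prf T

def ext (w : W) : Ex T := (col T w, prf T s a w)

abbrev Pt := (Set.range (ext T s a)) × Prop × (Prf T × Prop)

noncomputable def rep (x : Pt T s a) : W := x.1.2.choose

theorem rep_spec (x : Pt T s a) : ext T s a (rep T s a x) = x.1.1 := x.1.2.choose_spec

/-- the twist -/
def tw (x : Pt T s a) : Prf T × Prop := (x.1.1.2, x.2.1)

def s0 : Rl (Pt T s a) := fun x y =>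
  x.1.1.2.1 = y.1.1.2.1 ∧ symmDiff (tw T s a x) x.2.2 = symmDiff (tw T s a y) y.2.2
def a0 : Rl (Pt T s a) := fun x y => x.1.1.2.2.1 = y.1.1.2.2.1 ∧ x.2.2 = y.2.2

theorem s0_equiv : Equivalence (s0 T s a) :=
  ⟨fun _ => ⟨rfl, rfl⟩, fun h => ⟨h.1.symm, h.2.symm⟩,
    fun h k => ⟨h.1.trans k.1, h.2.trans k.2⟩⟩
theorem a0_equiv : Equivalence (a0 T s a) :=
  ⟨fun _ => ⟨rfl, rfl⟩, fun h => ⟨h.1.symm, h.2.symm⟩,
    fun h k => ⟨h.1.trans k.1, h.2.trans k.2⟩⟩

theorem both {x y : Pt T s a} (h : s0 T s a x y) (k : a0 T s a x y) :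
    tw T s a x = tw T s a y := by
  have h2 := h.2
  rw [k.2] at h2
  exact symmDiff_left_injective _ h2

/-- the canonical lift of a point -/
noncomputable def lft (w : W) (i : Prop) (g : Prf T × Prop) : Pt T s a :=
  (⟨ext T s a w, ⟨w, rfl⟩⟩, i, g)

theorem mem_prof {r : Rl W} {x y : W} (h : r x y) : col T y ∈ prof T r x := ⟨y, h, rfl⟩

theorem prof_congr {r : Rl W} (hr : Equivalence r) {x y : W} (h : r x y) :
    prof T r x = prof T r y := by
  ext c
  constructor
  · rintro ⟨v, hv, rfl⟩; exact ⟨v, hr.trans (hr.symm h) hv, rfl⟩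
  · rintro ⟨v, hv, rfl⟩; exact ⟨v, hr.trans h hv, rfl⟩

theorem of_prof_eq {r : Rl W} (hr : Equivalence r) {x y : W} (h : prof T r x = prof T r y) :
    ∃ v, r x v ∧ same T v y := by
  have : col T y ∈ prof T r x := h ▸ mem_prof T (hr.refl y)
  obtain ⟨v, hv, hc⟩ := this
  exact ⟨v, hv, (col_eq_iff T _ _).1 hc⟩

theorem rep_col (x : Pt T s a) : col T (rep T s a x) = x.1.1.1 :=
  congrArg Prod.fst (rep_spec T s a x)
theorem rep_prf (x : Pt T s a) : prf T s a (rep T s a x) = x.1.1.2 :=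
  congrArg Prod.snd (rep_spec T s a x)

theorem lft_same (w : W) (i : Prop) (g) : same T w (rep T s a (lft T s a w i g)) := by
  rw [← col_eq_iff, rep_col]; rfl

theorem tw_lft (w : W) (i : Prop) (g) : tw T s a (lft T s a w i g) = (prf T s a w, i) := rfl

theorem simFrame (hs : Equivalence s) (ha : Equivalence a) :
    Sim T s a (rep T s a) (s0 T s a) (a0 T s a) := by
  have hr : Equivalence (fun x y => s x y ∧ a x y) :=
    ⟨fun _ => ⟨hs.refl _, ha.refl _⟩, fun h => ⟨hs.symm h.1, ha.symm h.2⟩,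
      fun h k => ⟨hs.trans h.1 k.1, ha.trans h.2 k.2⟩⟩
  have hBs : ∀ x v, s (rep T s a x) v → ∃ y, s0 T s a x y ∧ same T v (rep T s a y) := by
    intro x v h
    refine ⟨lft T s a v True (symmDiff (prf T s a v, True) (symmDiff (tw T s a x) x.2.2)),
      ⟨?_, ?_⟩, lft_same T s a _ _ _⟩
    · rw [← rep_prf T s a x]
      exact prof_congr T hs h
    · rw [tw_lft]
      show _ = symmDiff (prf T s a v, True) (symmDiff (prf T s a v, True) _)
      rw [symmDiff_symmDiff_cancel_left]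
  have hBa : ∀ x v, a (rep T s a x) v → ∃ y, a0 T s a x y ∧ same T v (rep T s a y) := by
    intro x v h
    refine ⟨lft T s a v True x.2.2, ⟨?_, rfl⟩, lft_same T s a _ _ _⟩
    rw [← rep_prf T s a x]
    exact prof_congr T ha h
  have hBr : ∀ x v, s (rep T s a x) v → a (rep T s a x) v →
      ∃ y, (s0 T s a x y ∧ a0 T s a x y) ∧ same T v (rep T s a y) := by
    intro x v h k
    have e : prf T s a (rep T s a x) = prf T s a v := by
      simp only [prf]
      rw [prof_congr T hs h, prof_congr T ha k]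
      rw [prof_congr T hr (x := rep T s a x) (y := v) ⟨h, k⟩]
    have e' := (rep_prf T s a x).symm.trans e
    refine ⟨lft T s a v x.2.1 x.2.2, ⟨⟨?_, ?_⟩, ⟨?_, rfl⟩⟩, lft_same T s a _ _ _⟩
    · rw [e']; rfl
    · rw [tw_lft]
      simp only [tw]
      rw [e']; rfl
    · rw [e']; rfl
  refine ⟨s0_equiv T s a, a0_equiv T s a, ?_, ?_, ?_, ?_, hBs, hBa, hBr, ?_, ?_, ?_, ?_, ?_⟩
  · intro w
    exact ⟨lft T s a w True ⊥, (lft_same T s a w _ _).symm⟩
  · intro x y h
    refine of_prof_eq T hs ?_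
    have h1 := h.1
    rw [← rep_prf T s a x, ← rep_prf T s a y] at h1
    exact h1
  · intro x y h
    refine of_prof_eq T ha ?_
    have h1 := h.1
    rw [← rep_prf T s a x, ← rep_prf T s a y] at h1
    exact h1
  · intro x y h k
    have := both T s a h k
    have h2 : x.1.1.2 = y.1.1.2 := congrArg Prod.fst this
    rw [← rep_prf T s a x, ← rep_prf T s a y] at h2
    obtain ⟨v, hv, hv'⟩ := of_prof_eq T hr (congrArg (fun p : Prf T => p.2.2) h2)
    exact ⟨v, hv, hv'⟩
  · intro x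
    obtain ⟨q, i, g⟩ := x
    refine ⟨(q, ¬ i, symmDiff (q.1.2, ¬ i) (symmDiff (q.1.2, i) g)), ⟨rfl, ?_⟩, ?_, ?_⟩
    · show symmDiff (q.1.2, i) g = symmDiff (q.1.2, ¬ i) _
      rw [symmDiff_symmDiff_cancel_left]
    · rintro ⟨-, h⟩
      have h' : g = symmDiff (q.1.2, ¬ i) (symmDiff (q.1.2, i) g) := h
      have h2 : symmDiff (q.1.2, ¬ i) g = symmDiff (q.1.2, i) g := by
        conv_lhs => rw [h']
        rw [symmDiff_symmDiff_cancel_left]
      have h3 := symmDiff_left_injective _ h2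
      have h4 : (¬ i) = i := congrArg Prod.snd h3
      exact (not_iff_self (Eq.to_iff h4))
    · intro A _; exact Iff.rfl
  · intro x
    obtain ⟨q, i, g⟩ := x
    refine ⟨(q, ¬ i, g), ⟨rfl, rfl⟩, ?_, ?_⟩
    · rintro ⟨-, h⟩
      have h' : symmDiff (q.1.2, i) g = symmDiff (q.1.2, ¬ i) g := h
      have h3 := symmDiff_left_injective _ h'
      have h4 : i = (¬ i) := congrArg Prod.snd h3
      exact (not_iff_self (Eq.to_iff h4.symm))
    · intro A _; exact Iff.rfl
  · intro w v h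
    let x := lft T s a w True ⊥
    have hx : ext T s a (rep T s a x) = ext T s a w := rep_spec T s a x
    have hp : col T v ∈ prof T s (rep T s a x) := by
      have : prof T s (rep T s a x) = prof T s w := congrArg (fun p : Ex T => p.2.1) hx
      rw [this]; exact mem_prof T h
    obtain ⟨v', hv', hc⟩ := hp
    obtain ⟨y, hy, hy'⟩ := hBs x v' hv'
    exact ⟨x, y, hy, lft_same T s a _ _ _, ((col_eq_iff T _ _).1 hc).symm.trans hy'⟩
  · intro w v h
    let x := lft T s a w True ⊥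
    have hx : ext T s a (rep T s a x) = ext T s a w := rep_spec T s a x
    have hp : col T v ∈ prof T a (rep T s a x) := by
      have : prof T a (rep T s a x) = prof T a w := congrArg (fun p : Ex T => p.2.2.1) hx
      rw [this]; exact mem_prof T h
    obtain ⟨v', hv', hc⟩ := hp
    obtain ⟨y, hy, hy'⟩ := hBa x v' hv'
    exact ⟨x, y, hy, lft_same T s a _ _ _, ((col_eq_iff T _ _).1 hc).symm.trans hy'⟩
  · intro w v h k
    let x := lft T s a w True ⊥
    have hx : ext T s a (rep T s a x) = ext T s a w := rep_spec T s a x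
    have hp : col T v ∈ prof T (fun x y => s x y ∧ a x y) (rep T s a x) := by
      have : prof T (fun x y => s x y ∧ a x y) (rep T s a x)
          = prof T (fun x y => s x y ∧ a x y) w := congrArg (fun p : Ex T => p.2.2.2) hx
      rw [this]; exact mem_prof T ⟨h, k⟩
    obtain ⟨v', hv', hc⟩ := hp
    obtain ⟨y, hy, hy'⟩ := hBr x v' hv'.1 hv'.2
    exact ⟨x, y, hy, lft_same T s a _ _ _, ((col_eq_iff T _ _).1 hc).symm.trans hy'⟩

end frame

theorem Sim.transport {W : Type u} {X Y : Type*} {T : Set (W → Prop)} {s a : Rl W} {ρ : X → W}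
    {s0 a0 : Rl X} (h : Sim T s a ρ s0 a0) (e : Y ≃ X) :
    Sim T s a (fun y => ρ (e y)) (fun x y => s0 (e x) (e y)) (fun x y => a0 (e x) (e y)) where
  es := ⟨fun _ => h.es.refl _, fun k => h.es.symm k, fun k l => h.es.trans k l⟩
  ea := ⟨fun _ => h.ea.refl _, fun k => h.ea.symm k, fun k l => h.ea.trans k l⟩
  sj w := by obtain ⟨x, hx⟩ := h.sj w; exact ⟨e.symm x, by simpa using hx⟩
  fs x y k := h.fs _ _ k
  fa x y k := h.fa _ _ k
  fr x y k l := h.fr _ _ k l
  bs x v k := by obtain ⟨y, hy⟩ := h.bs _ _ k; exact ⟨e.symm y, by simpa using hy⟩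
  ba x v k := by obtain ⟨y, hy⟩ := h.ba _ _ k; exact ⟨e.symm y, by simpa using hy⟩
  br x v k l := by obtain ⟨y, hy⟩ := h.br _ _ k l; exact ⟨e.symm y, by simpa using hy⟩
  ds x := by obtain ⟨y, hy⟩ := h.ds (e x); exact ⟨e.symm y, by simpa using hy⟩
  da x := by obtain ⟨y, hy⟩ := h.da (e x); exact ⟨e.symm y, by simpa using hy⟩
  ls w v k := by
    obtain ⟨x, y, hy⟩ := h.ls _ _ k; exact ⟨e.symm x, e.symm y, by simpa using hy⟩
  la w v k := by
    obtain ⟨x, y, hy⟩ := h.la _ _ k; exact ⟨e.symm x, e.symm y, by simpa using hy⟩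
  lr w v k l := by
    obtain ⟨x, y, hy⟩ := h.lr _ _ k l; exact ⟨e.symm x, e.symm y, by simpa using hy⟩

theorem card_Pt {W : Type u} (T : Set (W → Prop)) (s a : Rl W) (hT : T.Finite) :
    Finite (Pt T s a) ∧ Nat.card (Pt T s a) ≤ 2 ^ (T.ncard + 6 * 2 ^ T.ncard + 2) := by
  classical
  have : Fintype T := hT.fintype
  have : Fintype (Set.range (ext T s a)) := Fintype.ofFinite _
  refine ⟨inferInstance, ?_⟩
  have ht : Fintype.card T = T.ncard := by
    rw [Set.ncard_eq_toFinset_card', Set.toFinset_card]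
  have h1 : Fintype.card (Col T) = 2 ^ T.ncard := by rw [Fintype.card_set, ht]
  have h2 : Fintype.card (Set (Col T)) = 2 ^ 2 ^ T.ncard := by rw [Fintype.card_set, h1]
  have h3 : Fintype.card (Prf T) = 2 ^ (3 * 2 ^ T.ncard) := by
    rw [Fintype.card_prod, Fintype.card_prod, h2, ← pow_add, ← pow_add]; congr 1; ring
  have h4 : Fintype.card (Ex T) = 2 ^ (T.ncard + 3 * 2 ^ T.ncard) := by
    rw [Fintype.card_prod, h1, h3, ← pow_add]
  have h5 : Fintype.card (Set.range (ext T s a)) ≤ Fintype.card (Ex T) :=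
    Fintype.card_subtype_le _
  have h6 : Nat.card (Pt T s a) =
      Fintype.card (Set.range (ext T s a)) * (2 * (2 ^ (3 * 2 ^ T.ncard) * 2)) := by
    have h7 : Fintype.card Prop = 2 := by simp
    rw [Nat.card_eq_fintype_card, Fintype.card_prod, Fintype.card_prod, Fintype.card_prod, h3, h7]
  rw [h6]
  calc _ ≤ 2 ^ (T.ncard + 3 * 2 ^ T.ncard) * (2 * (2 ^ (3 * 2 ^ T.ncard) * 2)) :=
        Nat.mul_le_mul_right _ (h4 ▸ h5)
    _ = 2 ^ (T.ncard + 6 * 2 ^ T.ncard + 2) := by
      have : (2 : ℕ) * (2 ^ (3 * 2 ^ T.ncard) * 2) = 2 ^ (3 * 2 ^ T.ncard + 2) := by ring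
      rw [this, ← pow_add]; congr 1; ring

theorem exists_small {W : Type u} (T : Set (W → Prop)) (s a : Rl W) (hT : T.Finite)
    (hs : Equivalence s) (ha : Equivalence a) (n : ℕ) (hn : T.ncard ≤ n + 1) :
    ∃ m < Bd n, ∃ (ρ : Fin m → W) (s0 a0 : Rl (Fin m)), Sim T s a ρ s0 a0 := by
  obtain ⟨h1, h2⟩ := card_Pt T s a hT
  refine ⟨Nat.card (Pt T s a), ?_, _, _, _,
    (simFrame T s a hs ha).transport (Finite.equivFin (Pt T s a)).symm⟩
  refine lt_of_le_of_lt h2 ?_
  unfold Bd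
  refine Nat.lt_succ_of_le (Nat.pow_le_pow_right (by norm_num) ?_)
  have : 2 ^ T.ncard ≤ 2 ^ (n + 1) := Nat.pow_le_pow_right (by norm_num) hn
  omega

/-- satisfaction where the meaning of letters may depend on the current relations -/
def gs {W : Type u} (V : Rl W → Rl W → ℕ → W → Prop) : Form → Rl W → Rl W → W → Prop
  | .atom p, s, a, w => V s a p w
  | .neg φ, s, a, w => ¬ gs V φ s a w
  | .conj φ ψ, s, a, w => gs V φ s a w ∧ gs V ψ s a w
  | .univ φ, s, a, _ => ∀ v, gs V φ s a v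
  | .know φ, s, a, w => ∀ v, s w v → gs V φ s a v
  | .ques φ, s, a, w => ∀ v, a w v → gs V φ s a v
  | .reso φ, s, a, w => ∀ v, s w v ∧ a w v → gs V φ s a v
  | .ann φ ψ, s, a, w => gs V ψ (fun x y => s x y ∧ (gs V φ s a x ↔ gs V φ s a y)) a w
  | .ask φ ψ, s, a, w => gs V ψ s (fun x y => a x y ∧ (gs V φ s a x ↔ gs V φ s a y)) w
  | .resolve φ, s, a, w => gs V φ (fun x y => s x y ∧ a x y) a w
  | .refine φ, s, a, w => gs V φ s (fun x y => s x y ∧ a x y) w

/-- codes for pairs of relations -/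
structure Cd (W : Type u) where
  b : Prop
  S : Set (W → Prop)
  b' : Prop
  S' : Set (W → Prop)

section truth

variable {W : Type u} {X : Type v}

def Cd.sr (κ : Cd W) (s a : Rl X) (ρ : X → W) : Rl X := fun x y =>
  s x y ∧ (κ.b → a x y) ∧ same κ.S (ρ x) (ρ y)
def Cd.ar (κ : Cd W) (s a : Rl X) (ρ : X → W) : Rl X := fun x y =>
  a x y ∧ (κ.b' → s x y) ∧ same κ.S' (ρ x) (ρ y)

variable (V : Rl W → Rl W → ℕ → W → Prop) (s a : Rl W)

def tset (φ : Form) (κ : Cd W) : W → Prop := gs V φ (κ.sr s a id) (κ.ar s a id)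

def Cd.annC (κ : Cd W) (A : W → Prop) : Cd W := ⟨κ.b, insert A κ.S, κ.b', κ.S'⟩
def Cd.askC (κ : Cd W) (A : W → Prop) : Cd W := ⟨κ.b, κ.S, κ.b', insert A κ.S'⟩
def Cd.resC (κ : Cd W) : Cd W := ⟨True, κ.S ∪ κ.S', κ.b', κ.S'⟩
def Cd.refC (κ : Cd W) : Cd W := ⟨κ.b, κ.S, True, κ.S ∪ κ.S'⟩

theorem Cd.sr_annC (κ : Cd W) (A : W → Prop) (s a : Rl X) (ρ : X → W) :
    (κ.annC A).sr s a ρ = fun x y => κ.sr s a ρ x y ∧ (A (ρ x) ↔ A (ρ y)) := by
  funext x y
  simp only [Cd.sr, Cd.annC, same, Set.mem_insert_iff, forall_eq_or_imp, eq_iff_iff]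
  tauto
theorem Cd.ar_annC (κ : Cd W) (A : W → Prop) (s a : Rl X) (ρ : X → W) :
    (κ.annC A).ar s a ρ = κ.ar s a ρ := rfl
theorem Cd.ar_askC (κ : Cd W) (A : W → Prop) (s a : Rl X) (ρ : X → W) :
    (κ.askC A).ar s a ρ = fun x y => κ.ar s a ρ x y ∧ (A (ρ x) ↔ A (ρ y)) := by
  funext x y
  simp only [Cd.ar, Cd.askC, same, Set.mem_insert_iff, forall_eq_or_imp, eq_iff_iff]
  tauto
theorem Cd.sr_askC (κ : Cd W) (A : W → Prop) (s a : Rl X) (ρ : X → W) :
    (κ.askC A).sr s a ρ = κ.sr s a ρ := rfl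
theorem same_union (S S' : Set (W → Prop)) (x y : W) :
    same (S ∪ S') x y ↔ same S x y ∧ same S' x y := by
  simp only [same, Set.mem_union, or_imp, forall_and]
theorem Cd.sr_resC (κ : Cd W) (s a : Rl X) (ρ : X → W) :
    κ.resC.sr s a ρ = fun x y => κ.sr s a ρ x y ∧ κ.ar s a ρ x y := by
  funext x y
  simp only [Cd.sr, Cd.ar, Cd.resC, same_union, eq_iff_iff]
  tauto
theorem Cd.ar_resC (κ : Cd W) (s a : Rl X) (ρ : X → W) :
    κ.resC.ar s a ρ = κ.ar s a ρ := rfl
theorem Cd.ar_refC (κ : Cd W) (s a : Rl X) (ρ : X → W) :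
    κ.refC.ar s a ρ = fun x y => κ.sr s a ρ x y ∧ κ.ar s a ρ x y := by
  funext x y
  simp only [Cd.sr, Cd.ar, Cd.refC, same_union, eq_iff_iff]
  tauto
theorem Cd.sr_refC (κ : Cd W) (s a : Rl X) (ρ : X → W) :
    κ.refC.sr s a ρ = κ.sr s a ρ := rfl

/-- the relevant truth sets -/
def relv : Form → Cd W → Set (W → Prop)
  | .atom _, _ => ∅
  | .neg φ, κ => relv φ κ
  | .conj φ ψ, κ => relv φ κ ∪ relv ψ κ
  | .univ φ, κ => insert (tset V s a φ κ) (relv φ κ)
  | .know φ, κ => insert (tset V s a φ κ) (relv φ κ)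
  | .ques φ, κ => insert (tset V s a φ κ) (relv φ κ)
  | .reso φ, κ => insert (tset V s a φ κ) (relv φ κ)
  | .ann φ ψ, κ => insert (tset V s a φ κ) (relv φ κ ∪ relv ψ (κ.annC (tset V s a φ κ)))
  | .ask φ ψ, κ => insert (tset V s a φ κ) (relv φ κ ∪ relv ψ (κ.askC (tset V s a φ κ)))
  | .resolve φ, κ => relv φ κ.resC
  | .refine φ, κ => relv φ κ.refC

theorem relv_card : ∀ (φ : Form) (κ : Cd W),
    (relv V s a φ κ).Finite ∧ (relv V s a φ κ).ncard ≤ code φ := by
  have hi : ∀ (A : W → Prop) (R : Set (W → Prop)) (n m : ℕ), R.Finite ∧ R.ncard ≤ n →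
      n + 1 ≤ m → (insert A R).Finite ∧ (insert A R).ncard ≤ m := by
    intro A R n m h hm
    exact ⟨h.1.insert A, (Set.ncard_insert_le A R).trans (by omega)⟩
  have hu : ∀ (R R' : Set (W → Prop)) (n n' : ℕ), R.Finite ∧ R.ncard ≤ n →
      R'.Finite ∧ R'.ncard ≤ n' → (R ∪ R').Finite ∧ (R ∪ R').ncard ≤ 2 * Nat.pair n n' := by
    intro R R' n n' h h'
    refine ⟨h.1.union h'.1, (Set.ncard_union_le R R').trans ?_⟩
    have := Nat.left_le_pair n n'
    have := Nat.right_le_pair n n'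
    omega
  intro φ
  induction φ with
  | atom p => intro κ; simp [relv]
  | neg φ ih => intro κ; exact ⟨(ih κ).1, (ih κ).2.trans (by simp only [code]; omega)⟩
  | conj φ ψ ih1 ih2 =>
    intro κ
    obtain ⟨h1, h2⟩ := hu _ _ _ _ (ih1 κ) (ih2 κ)
    exact ⟨h1, h2.trans (by simp only [code]; omega)⟩
  | univ φ ih => intro κ; exact hi _ _ _ _ (ih κ) (by simp only [code]; omega)
  | know φ ih => intro κ; exact hi _ _ _ _ (ih κ) (by simp only [code]; omega)
  | ques φ ih => intro κ; exact hi _ _ _ _ (ih κ) (by simp only [code]; omega)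
  | reso φ ih => intro κ; exact hi _ _ _ _ (ih κ) (by simp only [code]; omega)
  | ann φ ψ ih1 ih2 =>
    intro κ
    exact hi _ _ _ _ (hu _ _ _ _ (ih1 κ) (ih2 _)) (by simp only [code]; omega)
  | ask φ ψ ih1 ih2 =>
    intro κ
    exact hi _ _ _ _ (hu _ _ _ _ (ih1 κ) (ih2 _)) (by simp only [code]; omega)
  | resolve φ ih => intro κ; exact ⟨(ih _).1, (ih _).2.trans (by simp only [code]; omega)⟩
  | refine φ ih => intro κ; exact ⟨(ih _).1, (ih _).2.trans (by simp only [code]; omega)⟩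

variable {T : Set (W → Prop)} {s a} {ρ : X → W} {s0 a0 : Rl X}

theorem Sim.swap (h : Sim T s a ρ s0 a0) : Sim T a s ρ a0 s0 where
  es := h.ea
  ea := h.es
  sj := h.sj
  fs := h.fa
  fa := h.fs
  fr x y k l := by obtain ⟨v, hv⟩ := h.fr x y l k; exact ⟨v, ⟨hv.1.2, hv.1.1⟩, hv.2⟩
  bs := h.ba
  ba := h.bs
  br x v k l := by obtain ⟨y, hy⟩ := h.br x v l k; exact ⟨y, ⟨hy.1.2, hy.1.1⟩, hy.2⟩
  ds := h.da
  da := h.ds
  ls := h.la
  la := h.ls
  lr w v k l := by
    obtain ⟨x, y, hy⟩ := h.lr w v l k; exact ⟨x, y, ⟨hy.1.2, hy.1.1⟩, hy.2⟩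

/-- codes of relations are separated -/
theorem Sim.inj (h : Sim T s a ρ s0 a0) {b c : Prop} {S R : Set (W → Prop)} (hS : S ⊆ T)
    (hR : R ⊆ T) (x0 : X)
    (he : (fun x y => s0 x y ∧ (b → a0 x y) ∧ same S (ρ x) (ρ y)) =
      (fun x y => s0 x y ∧ (c → a0 x y) ∧ same R (ρ x) (ρ y))) :
    (fun x y => s x y ∧ (b → a x y) ∧ same S x y) =
      (fun x y => s x y ∧ (c → a x y) ∧ same R x y) := by
  have key : ∀ {b c : Prop} {S R : Set (W → Prop)} (hS : S ⊆ T) (hR : R ⊆ T),
      (fun x y => s0 x y ∧ (b → a0 x y) ∧ same S (ρ x) (ρ y)) =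
      (fun x y => s0 x y ∧ (c → a0 x y) ∧ same R (ρ x) (ρ y)) →
      (c → b) ∧ ∀ w v, s w v ∧ (b → a w v) ∧ same S w v → same R w v := by
    intro b c S R hS hR he
    have he' : ∀ x y, s0 x y → (b → a0 x y) → same S (ρ x) (ρ y) →
        (c → a0 x y) ∧ same R (ρ x) (ρ y) := by
      intro x y h1 h2 h3
      have := congrFun (congrFun he x) y
      exact (this.mp ⟨h1, h2, h3⟩).2
    constructor
    · intro hc
      by_contra hb
      obtain ⟨y, h1, h2, h3⟩ := h.ds x0
      exact h2 ((he' x0 y h1 (fun k => absurd k hb) (h3.mono hS)).1 hc)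
    · rintro w v ⟨h1, h2, h3⟩
      have hxy : ∃ x y, (s0 x y ∧ (b → a0 x y)) ∧ same T w (ρ x) ∧ same T v (ρ y) := by
        by_cases hb : b
        · obtain ⟨x, y, h4, h5⟩ := h.lr w v h1 (h2 hb)
          exact ⟨x, y, ⟨h4.1, fun _ => h4.2⟩, h5⟩
        · obtain ⟨x, y, h4, h5⟩ := h.ls w v h1
          exact ⟨x, y, ⟨h4, fun k => absurd k hb⟩, h5⟩
      obtain ⟨x, y, h4, h5, h6⟩ := hxy
      have h7 := (he' x y h4.1 h4.2
        (((h5.mono hS).symm.trans h3).trans (h6.mono hS))).2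
      exact ((h5.mono hR).trans h7).trans (h6.mono hR).symm
  obtain ⟨k1, k2⟩ := key hS hR he
  obtain ⟨k3, k4⟩ := key hR hS he.symm
  funext w v
  apply propext
  constructor
  · rintro ⟨h1, h2, h3⟩
    exact ⟨h1, fun hc => h2 (k1 hc), k2 w v ⟨h1, h2, h3⟩⟩
  · rintro ⟨h1, h2, h3⟩
    exact ⟨h1, fun hc => h2 (k3 hc), k4 w v ⟨h1, h2, h3⟩⟩

theorem Sim.injC (h : Sim T s a ρ s0 a0) {κ κ' : Cd W} (h1 : κ.S ⊆ T) (h2 : κ.S' ⊆ T)
    (h3 : κ'.S ⊆ T) (h4 : κ'.S' ⊆ T) (x0 : X) (hs : κ.sr s0 a0 ρ = κ'.sr s0 a0 ρ)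
    (ha : κ.ar s0 a0 ρ = κ'.ar s0 a0 ρ) :
    κ.sr s a id = κ'.sr s a id ∧ κ.ar s a id = κ'.ar s a id :=
  ⟨h.inj h1 h3 x0 hs, h.swap.inj h2 h4 x0 ha⟩

/-- forward and backward conditions for coded relations -/
theorem Sim.forth (h : Sim T s a ρ s0 a0) {b : Prop} {S : Set (W → Prop)} (hS : S ⊆ T) {x y : X}
    (hxy : s0 x y ∧ (b → a0 x y) ∧ same S (ρ x) (ρ y)) :
    ∃ v, (s (ρ x) v ∧ (b → a (ρ x) v) ∧ same S (ρ x) v) ∧ same T v (ρ y) := by
  obtain ⟨h1, h2, h3⟩ := hxy
  by_cases hb : b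
  · obtain ⟨v, hv, hv'⟩ := h.fr x y h1 (h2 hb)
    exact ⟨v, ⟨hv.1, fun _ => hv.2, h3.trans (hv'.mono hS).symm⟩, hv'⟩
  · obtain ⟨v, hv, hv'⟩ := h.fs x y h1
    exact ⟨v, ⟨hv, fun k => absurd k hb, h3.trans (hv'.mono hS).symm⟩, hv'⟩

theorem Sim.back (h : Sim T s a ρ s0 a0) {b : Prop} {S : Set (W → Prop)} (hS : S ⊆ T) {x : X}
    {v : W} (hxv : s (ρ x) v ∧ (b → a (ρ x) v) ∧ same S (ρ x) v) :
    ∃ y, (s0 x y ∧ (b → a0 x y) ∧ same S (ρ x) (ρ y)) ∧ same T v (ρ y) := by
  obtain ⟨h1, h2, h3⟩ := hxv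
  by_cases hb : b
  · obtain ⟨y, hv, hv'⟩ := h.br x v h1 (h2 hb)
    exact ⟨y, ⟨hv.1, fun _ => hv.2, h3.trans (hv'.mono hS)⟩, hv'⟩
  · obtain ⟨y, hv, hv'⟩ := h.bs x v h1
    exact ⟨y, ⟨hv, fun k => absurd k hb, h3.trans (hv'.mono hS)⟩, hv'⟩

/-- the transferred interpretation -/
def Vt (T : Set (W → Prop)) (V : Rl W → Rl W → ℕ → W → Prop) (s a : Rl W) (ρ : X → W)
    (s0 a0 : Rl X) : Rl X → Rl X → ℕ → X → Prop := fun S A p x =>
  ∃ κ : Cd W, κ.S ⊆ T ∧ κ.S' ⊆ T ∧ κ.sr s0 a0 ρ = S ∧ κ.ar s0 a0 ρ = A ∧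
    V (κ.sr s a id) (κ.ar s a id) p (ρ x)

theorem truth (h : Sim T s a ρ s0 a0) (φ : Form) : ∀ (κ : Cd W), κ.S ⊆ T → κ.S' ⊆ T →
    relv V s a φ κ ⊆ T → ∀ x, gs (Vt T V s a ρ s0 a0) φ (κ.sr s0 a0 ρ) (κ.ar s0 a0 ρ) x ↔
      gs V φ (κ.sr s a id) (κ.ar s a id) (ρ x) := by
  induction φ with
  | atom p =>
    intro κ h1 h2 _ x
    constructor
    · rintro ⟨κ', h3, h4, h5, h6, h7⟩
      obtain ⟨h8, h9⟩ := h.injC h3 h4 h1 h2 x h5 h6
      rw [h8, h9] at h7
      exact h7
    · intro h3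
      exact ⟨κ, h1, h2, rfl, rfl, h3⟩
  | neg φ ih =>
    intro κ h1 h2 h3 x
    exact not_congr (ih κ h1 h2 h3 x)
  | conj φ ψ ih1 ih2 =>
    intro κ h1 h2 h3 x
    have h3 : relv V s a φ κ ∪ relv V s a ψ κ ⊆ T := h3
    exact and_congr (ih1 κ h1 h2 (Set.subset_union_left.trans h3) x)
      (ih2 κ h1 h2 (Set.subset_union_right.trans h3) x)
  | univ φ ih =>
    intro κ h1 h2 h3 x
    have h4 : tset V s a φ κ ∈ T := h3 (Set.mem_insert _ _)
    have h5 : relv V s a φ κ ⊆ T := (Set.subset_insert _ _).trans h3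
    constructor
    · intro h6 v
      obtain ⟨y, hy⟩ := h.sj v
      exact (hy _ h4).1 ((ih κ h1 h2 h5 y).1 (h6 y))
    · intro h6 y
      exact (ih κ h1 h2 h5 y).2 (h6 _)
  | know φ ih =>
    intro κ h1 h2 h3 x
    have h4 : tset V s a φ κ ∈ T := h3 (Set.mem_insert _ _)
    have h5 : relv V s a φ κ ⊆ T := (Set.subset_insert _ _).trans h3
    constructor
    · intro h6 v hv
      obtain ⟨y, hy, hy'⟩ := h.back h1 hv
      exact (hy' _ h4).2 ((ih κ h1 h2 h5 y).1 (h6 y hy))
    · intro h6 y hy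
      obtain ⟨v, hv, hv'⟩ := h.forth h1 hy
      exact (ih κ h1 h2 h5 y).2 ((hv' _ h4).1 (h6 v hv))
  | ques φ ih =>
    intro κ h1 h2 h3 x
    have h4 : tset V s a φ κ ∈ T := h3 (Set.mem_insert _ _)
    have h5 : relv V s a φ κ ⊆ T := (Set.subset_insert _ _).trans h3
    constructor
    · intro h6 v hv
      obtain ⟨y, hy, hy'⟩ := h.swap.back h2 hv
      exact (hy' _ h4).2 ((ih κ h1 h2 h5 y).1 (h6 y hy))
    · intro h6 y hy
      obtain ⟨v, hv, hv'⟩ := h.swap.forth h2 hy
      exact (ih κ h1 h2 h5 y).2 ((hv' _ h4).1 (h6 v hv))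
  | reso φ ih =>
    intro κ h1 h2 h3 x
    have h4 : tset V s a φ κ ∈ T := h3 (Set.mem_insert _ _)
    have h5 : relv V s a φ κ ⊆ T := (Set.subset_insert _ _).trans h3
    have h7 : κ.resC.S ⊆ T := Set.union_subset h1 h2
    have e0 := κ.sr_resC s0 a0 ρ
    have e1 := κ.sr_resC s a id
    constructor
    · intro h6 v hv
      have hv2 : κ.resC.sr s a id (ρ x) v := by rw [e1]; exact hv
      obtain ⟨y, hy, hy'⟩ := h.back h7 hv2
      have hy2 : κ.resC.sr s0 a0 ρ x y := hy
      rw [e0] at hy2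
      exact (hy' _ h4).2 ((ih κ h1 h2 h5 y).1 (h6 y hy2))
    · intro h6 y hy
      have hy2 : κ.resC.sr s0 a0 ρ x y := by rw [e0]; exact hy
      obtain ⟨v, hv, hv'⟩ := h.forth h7 hy2
      have hv2 : κ.resC.sr s a id (ρ x) v := hv
      rw [e1] at hv2
      exact (ih κ h1 h2 h5 y).2 ((hv' _ h4).1 (h6 v hv2))
  | ann φ ψ ih1 ih2 =>
    intro κ h1 h2 h3 x
    have h4 : tset V s a φ κ ∈ T := h3 (Set.mem_insert _ _)
    have h5 : relv V s a φ κ ⊆ T :=
      (Set.subset_union_left.trans (Set.subset_insert _ _)).trans h3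
    have h6 : relv V s a ψ (κ.annC (tset V s a φ κ)) ⊆ T :=
      (Set.subset_union_right.trans (Set.subset_insert _ _)).trans h3
    have h7 := ih2 (κ.annC (tset V s a φ κ)) (Set.insert_subset h4 h1) h2 h6 x
    rw [Cd.sr_annC, Cd.sr_annC, Cd.ar_annC, Cd.ar_annC] at h7
    have h8 : (fun x y => κ.sr s0 a0 ρ x y ∧
        (gs (Vt T V s a ρ s0 a0) φ (κ.sr s0 a0 ρ) (κ.ar s0 a0 ρ) x ↔
          gs (Vt T V s a ρ s0 a0) φ (κ.sr s0 a0 ρ) (κ.ar s0 a0 ρ) y)) =
        (fun x y => κ.sr s0 a0 ρ x y ∧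
          (tset V s a φ κ (ρ x) ↔ tset V s a φ κ (ρ y))) := by
      funext x y
      rw [ih1 κ h1 h2 h5 x, ih1 κ h1 h2 h5 y]
      rfl
    simp only [gs]
    rw [h8]
    exact h7
  | ask φ ψ ih1 ih2 =>
    intro κ h1 h2 h3 x
    have h4 : tset V s a φ κ ∈ T := h3 (Set.mem_insert _ _)
    have h5 : relv V s a φ κ ⊆ T :=
      (Set.subset_union_left.trans (Set.subset_insert _ _)).trans h3
    have h6 : relv V s a ψ (κ.askC (tset V s a φ κ)) ⊆ T :=
      (Set.subset_union_right.trans (Set.subset_insert _ _)).trans h3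
    have h7 := ih2 (κ.askC (tset V s a φ κ)) h1 (Set.insert_subset h4 h2) h6 x
    rw [Cd.ar_askC, Cd.ar_askC, Cd.sr_askC, Cd.sr_askC] at h7
    have h8 : (fun x y => κ.ar s0 a0 ρ x y ∧
        (gs (Vt T V s a ρ s0 a0) φ (κ.sr s0 a0 ρ) (κ.ar s0 a0 ρ) x ↔
          gs (Vt T V s a ρ s0 a0) φ (κ.sr s0 a0 ρ) (κ.ar s0 a0 ρ) y)) =
        (fun x y => κ.ar s0 a0 ρ x y ∧
          (tset V s a φ κ (ρ x) ↔ tset V s a φ κ (ρ y))) := by
      funext x y
      rw [ih1 κ h1 h2 h5 x, ih1 κ h1 h2 h5 y]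
      rfl
    simp only [gs]
    rw [h8]
    exact h7
  | resolve φ ih =>
    intro κ h1 h2 h3 x
    have h7 := ih κ.resC (Set.union_subset h1 h2) h2 h3 x
    rw [Cd.sr_resC, Cd.sr_resC, Cd.ar_resC, Cd.ar_resC] at h7
    exact h7
  | refine φ ih =>
    intro κ h1 h2 h3 x
    have h7 := ih κ.refC h1 (Set.union_subset h1 h2) h3 x
    rw [Cd.ar_refC, Cd.ar_refC, Cd.sr_refC, Cd.sr_refC] at h7
    exact h7

end truth


section cert

theorem small_counter {W : Type u} (V : Rl W → Rl W → ℕ → W → Prop) {s a : Rl W}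
    (hs : Equivalence s) (ha : Equivalence a) (φ : Form) (w : W) (hw : ¬ gs V φ s a w) :
    ∃ m < Bd (code φ), ∃ (V' : Rl (Fin m) → Rl (Fin m) → ℕ → Fin m → Prop) (s0 a0 : Rl (Fin m))
      (x : Fin m), Equivalence s0 ∧ Equivalence a0 ∧ ¬ gs V' φ s0 a0 x := by
  let κ : Cd W := ⟨False, ∅, False, ∅⟩
  have e0 : ∀ {X : Type u} (ρ : X → W) (s a : Rl X), κ.sr s a ρ = s := by
    intro X ρ s a; funext x y; simp [Cd.sr, κ, same]
  have e1 : ∀ {X : Type u} (ρ : X → W) (s a : Rl X), κ.ar s a ρ = a := by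
    intro X ρ s a; funext x y; simp [Cd.ar, κ, same]
  have e2 : ∀ {X : Type} (ρ : X → W) (s a : Rl X), κ.sr s a ρ = s := by
    intro X ρ s a; funext x y; simp [Cd.sr, κ, same]
  have e3 : ∀ {X : Type} (ρ : X → W) (s a : Rl X), κ.ar s a ρ = a := by
    intro X ρ s a; funext x y; simp [Cd.ar, κ, same]
  let T : Set (W → Prop) := insert (tset V s a φ κ) (relv V s a φ κ)
  obtain ⟨h1, h2⟩ := relv_card V s a φ κ
  have hT : T.Finite := h1.insert _
  have hc : T.ncard ≤ code φ + 1 := (Set.ncard_insert_le _ _).trans (by omega)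
  obtain ⟨m, hm, ρ, s0, a0, h⟩ := exists_small T s a hT hs ha (code φ) hc
  obtain ⟨x, hx⟩ := h.sj w
  refine ⟨m, hm, Vt T V s a ρ s0 a0, s0, a0, x, h.es, h.ea, ?_⟩
  have h3 := truth V h φ κ (Set.empty_subset _) (Set.empty_subset _) (Set.subset_insert _ _) x
  rw [e0, e1, e2, e3] at h3
  rw [h3]
  have h4 := hx _ (Set.mem_insert _ _)
  simp only [tset] at h4
  rw [e0, e1] at h4
  rw [h4]
  exact hw

theorem code_surj : ∀ c : ℕ, ∃ φ : Form, code φ = c := by
  intro c
  induction c using Nat.strong_induction_on with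
  | _ c ih =>
    have hc : c = 11 * (c / 11) + c % 11 := by omega
    have hlt : c % 11 < 11 := Nat.mod_lt _ (by norm_num)
    have hl := Nat.unpair_left_le (c / 11)
    have hr := Nat.unpair_right_le (c / 11)
    by_cases h0 : c % 11 = 0
    · exact ⟨.atom (c / 11), by simp only [code]; omega⟩
    have hq : c / 11 < c := by omega
    obtain ⟨φ, hφ⟩ := ih _ hq
    obtain ⟨α, hα⟩ := ih _ (lt_of_le_of_lt hl hq)
    obtain ⟨β, hβ⟩ := ih _ (lt_of_le_of_lt hr hq)
    have hp : Nat.pair (code α) (code β) = c / 11 := by rw [hα, hβ, Nat.pair_unpair]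
    have : c % 11 = 1 ∨ c % 11 = 2 ∨ c % 11 = 3 ∨ c % 11 = 4 ∨ c % 11 = 5 ∨ c % 11 = 6 ∨
      c % 11 = 7 ∨ c % 11 = 8 ∨ c % 11 = 9 ∨ c % 11 = 10 := by omega
    rcases this with h | h | h | h | h | h | h | h | h | h
    · exact ⟨.neg φ, by simp only [code]; omega⟩
    · exact ⟨.conj α β, by simp only [code]; omega⟩
    · exact ⟨.univ φ, by simp only [code]; omega⟩
    · exact ⟨.know φ, by simp only [code]; omega⟩
    · exact ⟨.ques φ, by simp only [code]; omega⟩
    · exact ⟨.reso φ, by simp only [code]; omega⟩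
    · exact ⟨.ann α β, by simp only [code]; omega⟩
    · exact ⟨.ask α β, by simp only [code]; omega⟩
    · exact ⟨.resolve φ, by simp only [code]; omega⟩
    · exact ⟨.refine φ, by simp only [code]; omega⟩

theorem code_inj : ∀ φ ψ : Form, code φ = code ψ → φ = ψ := by
  intro φ
  induction φ with
  | atom p =>
    intro ψ h; cases ψ <;> simp only [code] at h <;> first | omega | (congr 1; omega)
  | neg φ ih =>
    intro ψ h; cases ψ <;> simp only [code] at h <;> first | omega | (congr 1; exact ih _ (by omega))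
  | conj φ φ' ih ih' =>
    intro ψ h
    cases ψ <;> simp only [code] at h <;> first
      | omega
      | (rename_i α β
         have h' := Nat.pair_eq_pair.1
           (show Nat.pair (code φ) (code φ') = Nat.pair (code α) (code β) by omega)
         rw [ih _ h'.1, ih' _ h'.2])
  | univ φ ih =>
    intro ψ h; cases ψ <;> simp only [code] at h <;> first | omega | (congr 1; exact ih _ (by omega))
  | know φ ih =>
    intro ψ h; cases ψ <;> simp only [code] at h <;> first | omega | (congr 1; exact ih _ (by omega))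
  | ques φ ih =>
    intro ψ h; cases ψ <;> simp only [code] at h <;> first | omega | (congr 1; exact ih _ (by omega))
  | reso φ ih =>
    intro ψ h; cases ψ <;> simp only [code] at h <;> first | omega | (congr 1; exact ih _ (by omega))
  | ann φ φ' ih ih' =>
    intro ψ h
    cases ψ <;> simp only [code] at h <;> first
      | omega
      | (rename_i α β
         have h' := Nat.pair_eq_pair.1
           (show Nat.pair (code φ) (code φ') = Nat.pair (code α) (code β) by omega)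
         rw [ih _ h'.1, ih' _ h'.2])
  | ask φ φ' ih ih' =>
    intro ψ h
    cases ψ <;> simp only [code] at h <;> first
      | omega
      | (rename_i α β
         have h' := Nat.pair_eq_pair.1
           (show Nat.pair (code φ) (code φ') = Nat.pair (code α) (code β) by omega)
         rw [ih _ h'.1, ih' _ h'.2])
  | resolve φ ih =>
    intro ψ h; cases ψ <;> simp only [code] at h <;> first | omega | (congr 1; exact ih _ (by omega))
  | refine φ ih =>
    intro ψ h; cases ψ <;> simp only [code] at h <;> first | omega | (congr 1; exact ih _ (by omega))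

theorem exists_bits (K : ℕ) (P : ℕ → Prop) : ∃ z < 2 ^ K, ∀ i < K, (bit z i ↔ P i) := by
  classical
  refine ⟨Nat.ofBits (fun i : Fin K => decide (P i)), Nat.ofBits_lt_two_pow _, fun i hi => ?_⟩
  have := Nat.testBit_ofBits_lt (fun i : Fin K => decide (P i)) i hi
  rw [Nat.testBit_eq_decide_div_mod_eq] at this
  unfold bit
  simpa using this


theorem idx_lt {n m c s a w : ℕ} (hc : c < n + 1) (hs : s < 2 ^ (m * m)) (ha : a < 2 ^ (m * m))
    (hw : w < m) : Nat.pair c (Nat.pair s (Nat.pair a w)) < Kb n m := by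
  unfold Kb
  refine (Nat.pair_lt_pair_left _ hc).trans (Nat.pair_lt_pair_right _ ?_)
  refine (Nat.pair_lt_pair_left _ hs).trans (Nat.pair_lt_pair_right _ ?_)
  exact (Nat.pair_lt_pair_left _ ha).trans (Nat.pair_lt_pair_right _ hw)

/-- the relation coded by `t` -/
def relOf (m t : ℕ) : Rl (Fin m) := fun x y => bit t (x * m + y)

theorem exists_rel (m : ℕ) (r : Rl (Fin m)) : ∃ t < 2 ^ (m * m), relOf m t = r := by
  obtain ⟨t, ht, h⟩ := exists_bits (m * m) (fun i => ∃ x y : Fin m, i = x * m + y ∧ r x y)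
  refine ⟨t, ht, ?_⟩
  funext x y
  apply propext
  have hlt : (x : ℕ) * m + y < m * m := by
    have h1 := x.2
    have h2 := y.2
    calc (x : ℕ) * m + y < x * m + m := by omega
      _ = (x + 1) * m := by ring
      _ ≤ m * m := Nat.mul_le_mul_right _ h1
  unfold relOf
  rw [h _ hlt]
  constructor
  · rintro ⟨x', y', he, hr⟩
    have hm : 0 < m := lt_of_le_of_lt (Nat.zero_le _) x.2
    have h1 : (x : ℕ) = x' := by
      have e1 : ((x : ℕ) * m + y) / m = x := by
        rw [mul_comm, Nat.mul_add_div hm, Nat.div_eq_of_lt y.2, add_zero]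
      have e2 : ((x' : ℕ) * m + y') / m = x' := by
        rw [mul_comm, Nat.mul_add_div hm, Nat.div_eq_of_lt y'.2, add_zero]
      rw [← e1, he, e2]
    have h2 : (y : ℕ) = y' := by rw [h1] at he; omega
    have h3 : x = x' := Fin.ext h1
    have h4 : y = y' := Fin.ext h2
    rw [h3, h4]; exact hr
  · intro hr
    exact ⟨x, y, rfl, hr⟩

theorem bad_of_counter (φ : Form) {m : ℕ} (hm : m < Bd (code φ))
    (V : Rl (Fin m) → Rl (Fin m) → ℕ → Fin m → Prop) (s0 a0 : Rl (Fin m)) (x : Fin m)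
    (hs : Equivalence s0) (ha : Equivalence a0) (h : ¬ gs V φ s0 a0 x) : Bad (code φ) := by
  obtain ⟨z, hz, hz2⟩ := exists_bits (Kb (code φ) m) (fun i =>
    ∃ (ψ : Form) (hw : i.unpair.2.unpair.2.unpair.2 < m), code ψ = i.unpair.1 ∧
      gs V ψ (relOf m i.unpair.2.unpair.1) (relOf m i.unpair.2.unpair.2.unpair.1) ⟨_, hw⟩)
  have key : ∀ ψ : Form, code ψ < code φ + 1 → ∀ s < 2 ^ (m * m), ∀ a < 2 ^ (m * m), ∀ w : Fin m,
      (tb z (code ψ) s a w ↔ gs V ψ (relOf m s) (relOf m a) w) := by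
    intro ψ hψ s hs a ha w
    unfold tb
    rw [hz2 _ (idx_lt hψ hs ha w.2)]
    simp only [Nat.unpair_pair]
    constructor
    · rintro ⟨ψ', hw, he, hg⟩
      rw [code_inj _ _ he] at hg
      exact hg
    · intro hg
      exact ⟨ψ, w.2, rfl, hg⟩
  obtain ⟨s, hs1, hs2⟩ := exists_rel m s0
  obtain ⟨a, ha1, ha2⟩ := exists_rel m a0
  refine ⟨m, hm, z, hz, s, hs1, a, ha1, x, x.2, ?_, ?_, ?_, ?_⟩
  · subst hs2
    exact ⟨fun i hi => hs.refl ⟨i, hi⟩, fun i hi j hj h => hs.symm (x := ⟨i, hi⟩) (y := ⟨j, hj⟩) h,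
      fun i hi j hj l hl h => hs.trans (x := ⟨i, hi⟩) (y := ⟨j, hj⟩) (z := ⟨l, hl⟩) h.1 h.2⟩
  · subst ha2
    exact ⟨fun i hi => ha.refl ⟨i, hi⟩, fun i hi j hj h => ha.symm (x := ⟨i, hi⟩) (y := ⟨j, hj⟩) h,
      fun i hi j hj l hl h => ha.trans (x := ⟨i, hi⟩) (y := ⟨j, hj⟩) (z := ⟨l, hl⟩) h.1 h.2⟩
  · intro c hc s hs a ha w hw
    obtain ⟨ψ, rfl⟩ := code_surj c
    have kw : ∀ ψ : Form, code ψ < code φ + 1 → ∀ w (hw : w < m),
        (tb z (code ψ) s a w ↔ gs V ψ (relOf m s) (relOf m a) ⟨w, hw⟩) :=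
      fun ψ hψ w hw => key ψ hψ s hs a ha ⟨w, hw⟩
    have kb := kw ψ hc w hw
    refine ⟨fun h => ?_, fun h => ?_, fun h => ?_, fun h => ?_, fun h => ?_, fun h => ?_,
      fun h => ?_, fun h => ?_, fun h => ?_, fun h => ?_⟩
    · cases ψ <;> simp only [code] at h <;> try omega
      rename_i α
      have e : code α.neg / 11 = code α := by simp only [code]; omega
      have hlt : code α < code φ + 1 := by simp only [code] at hc; omega
      rw [e, kb, kw α hlt w hw]
      rfl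
    · cases ψ <;> simp only [code] at h <;> try omega
      rename_i α β
      have e : code (α.conj β) / 11 = Nat.pair (code α) (code β) := by simp only [code]; omega
      have h1 := Nat.left_le_pair (code α) (code β)
      have h2 := Nat.right_le_pair (code α) (code β)
      have hlt : code α < code φ + 1 := by simp only [code] at hc; omega
      have hlt2 : code β < code φ + 1 := by simp only [code] at hc; omega
      rw [e, kb, Nat.unpair_pair, kw α hlt w hw, kw β hlt2 w hw]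
      rfl
    · cases ψ <;> simp only [code] at h <;> try omega
      rename_i α
      have e : code α.univ / 11 = code α := by simp only [code]; omega
      have hlt : code α < code φ + 1 := by simp only [code] at hc; omega
      rw [e, kb]
      exact ⟨fun k v hv => (kw α hlt v hv).2 (k ⟨v, hv⟩),
        fun k v => (kw α hlt v v.2).1 (k v v.2)⟩
    · cases ψ <;> simp only [code] at h <;> try omega
      rename_i α
      have e : code α.know / 11 = code α := by simp only [code]; omega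
      have hlt : code α < code φ + 1 := by simp only [code] at hc; omega
      rw [e, kb]
      exact ⟨fun k v hv hb => (kw α hlt v hv).2 (k ⟨v, hv⟩ hb),
        fun k v hb => (kw α hlt v v.2).1 (k v v.2 hb)⟩
    · cases ψ <;> simp only [code] at h <;> try omega
      rename_i α
      have e : code α.ques / 11 = code α := by simp only [code]; omega
      have hlt : code α < code φ + 1 := by simp only [code] at hc; omega
      rw [e, kb]
      exact ⟨fun k v hv hb => (kw α hlt v hv).2 (k ⟨v, hv⟩ hb),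
        fun k v hb => (kw α hlt v v.2).1 (k v v.2 hb)⟩
    · cases ψ <;> simp only [code] at h <;> try omega
      rename_i α
      have e : code α.reso / 11 = code α := by simp only [code]; omega
      have hlt : code α < code φ + 1 := by simp only [code] at hc; omega
      rw [e, kb]
      exact ⟨fun k v hv hb => (kw α hlt v hv).2 (k ⟨v, hv⟩ hb),
        fun k v hb => (kw α hlt v v.2).1 (k v v.2 hb)⟩
    · cases ψ <;> simp only [code] at h <;> try omega
      rename_i α β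
      have e : code (α.ann β) / 11 = Nat.pair (code α) (code β) := by simp only [code]; omega
      have h1 := Nat.left_le_pair (code α) (code β)
      have h2 := Nat.right_le_pair (code α) (code β)
      have hlt : code α < code φ + 1 := by simp only [code] at hc; omega
      have hlt2 : code β < code φ + 1 := by simp only [code] at hc; omega
      rw [e, kb, Nat.unpair_pair]
      constructor
      · intro k
        obtain ⟨t, ht1, ht2⟩ := exists_rel m (fun x y => relOf m s x y ∧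
          (gs V α (relOf m s) (relOf m a) x ↔ gs V α (relOf m s) (relOf m a) y))
        refine ⟨t, ht1, fun i hi j hj => ?_, ?_⟩
        · rw [kw α hlt i hi, kw α hlt j hj]
          exact Eq.to_iff (congrFun (congrFun ht2 ⟨i, hi⟩) ⟨j, hj⟩)
        · refine (key β hlt2 t ht1 a ha ⟨w, hw⟩).2 ?_
          rw [ht2]; exact k
      · rintro ⟨t, ht1, ht2, ht3⟩
        have e2 : relOf m t = (fun x y => relOf m s x y ∧
          (gs V α (relOf m s) (relOf m a) x ↔ gs V α (relOf m s) (relOf m a) y)) := by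
          funext x y
          apply propext
          rw [← kw α hlt x x.2, ← kw α hlt y y.2]
          exact ht2 x x.2 y y.2
        have k := (key β hlt2 t ht1 a ha ⟨w, hw⟩).1 ht3
        rw [e2] at k
        exact k
    · cases ψ <;> simp only [code] at h <;> try omega
      rename_i α β
      have e : code (α.ask β) / 11 = Nat.pair (code α) (code β) := by simp only [code]; omega
      have h1 := Nat.left_le_pair (code α) (code β)
      have h2 := Nat.right_le_pair (code α) (code β)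
      have hlt : code α < code φ + 1 := by simp only [code] at hc; omega
      have hlt2 : code β < code φ + 1 := by simp only [code] at hc; omega
      rw [e, kb, Nat.unpair_pair]
      constructor
      · intro k
        obtain ⟨t, ht1, ht2⟩ := exists_rel m (fun x y => relOf m a x y ∧
          (gs V α (relOf m s) (relOf m a) x ↔ gs V α (relOf m s) (relOf m a) y))
        refine ⟨t, ht1, fun i hi j hj => ?_, ?_⟩
        · rw [kw α hlt i hi, kw α hlt j hj]
          exact Eq.to_iff (congrFun (congrFun ht2 ⟨i, hi⟩) ⟨j, hj⟩)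
        · refine (key β hlt2 s hs t ht1 ⟨w, hw⟩).2 ?_
          rw [ht2]; exact k
      · rintro ⟨t, ht1, ht2, ht3⟩
        have e2 : relOf m t = (fun x y => relOf m a x y ∧
          (gs V α (relOf m s) (relOf m a) x ↔ gs V α (relOf m s) (relOf m a) y)) := by
          funext x y
          apply propext
          rw [← kw α hlt x x.2, ← kw α hlt y y.2]
          exact ht2 x x.2 y y.2
        have k := (key β hlt2 s hs t ht1 ⟨w, hw⟩).1 ht3
        rw [e2] at k
        exact k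
    · cases ψ <;> simp only [code] at h <;> try omega
      rename_i α
      have e : code α.resolve / 11 = code α := by simp only [code]; omega
      have hlt : code α < code φ + 1 := by simp only [code] at hc; omega
      rw [e, kb]
      constructor
      · intro k
        obtain ⟨t, ht1, ht2⟩ := exists_rel m (fun x y => relOf m s x y ∧ relOf m a x y)
        refine ⟨t, ht1, fun i hi j hj => ?_, ?_⟩
        · exact Eq.to_iff (congrFun (congrFun ht2 ⟨i, hi⟩) ⟨j, hj⟩)
        · refine (key α hlt t ht1 a ha ⟨w, hw⟩).2 ?_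
          rw [ht2]; exact k
      · rintro ⟨t, ht1, ht2, ht3⟩
        have e2 : relOf m t = (fun x y => relOf m s x y ∧ relOf m a x y) := by
          funext x y
          apply propext
          exact ht2 x x.2 y y.2
        have k := (key α hlt t ht1 a ha ⟨w, hw⟩).1 ht3
        rw [e2] at k
        exact k
    · cases ψ <;> simp only [code] at h <;> try omega
      rename_i α
      have e : code α.refine / 11 = code α := by simp only [code]; omega
      have hlt : code α < code φ + 1 := by simp only [code] at hc; omega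
      rw [e, kb]
      constructor
      · intro k
        obtain ⟨t, ht1, ht2⟩ := exists_rel m (fun x y => relOf m s x y ∧ relOf m a x y)
        refine ⟨t, ht1, fun i hi j hj => ?_, ?_⟩
        · exact Eq.to_iff (congrFun (congrFun ht2 ⟨i, hi⟩) ⟨j, hj⟩)
        · refine (key α hlt s hs t ht1 ⟨w, hw⟩).2 ?_
          rw [ht2]; exact k
      · rintro ⟨t, ht1, ht2, ht3⟩
        have e2 : relOf m t = (fun x y => relOf m s x y ∧ relOf m a x y) := by
          funext x y
          apply propext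
          exact ht2 x x.2 y y.2
        have k := (key α hlt s hs t ht1 ⟨w, hw⟩).1 ht3
        rw [e2] at k
        exact k
  · rw [key φ (Nat.lt_succ_self _) s hs1 a ha1 x, hs2, ha2]
    exact h

end cert


section sat

variable {W : Type u}

/-- the interpretation of letters given by a substitution -/
def Vs (θ : ℕ → Form) (val : ℕ → W → Prop) : Rl W → Rl W → ℕ → W → Prop := fun s a p w =>
  ∃ (hs : Equivalence s) (ha : Equivalence a), Sat (θ p) ⟨⟨s, hs⟩, ⟨a, ha⟩, val⟩ w

theorem sat_iff (θ : ℕ → Form) (φ : Form) : ∀ (M : Model W) (w : W),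
    Sat (subst θ φ) M w ↔ gs (Vs θ M.val) φ M.sim.r M.app.r w := by
  induction φ with
  | atom p =>
    intro M w
    exact ⟨fun h => ⟨M.sim.iseqv, M.app.iseqv, h⟩, fun ⟨_, _, h⟩ => h⟩
  | neg φ ih => intro M w; exact not_congr (ih M w)
  | conj φ ψ ih1 ih2 => intro M w; exact and_congr (ih1 M w) (ih2 M w)
  | univ φ ih => intro M w; exact forall_congr' fun v => ih M v
  | know φ ih => intro M w; exact forall_congr' fun v => imp_congr Iff.rfl (ih M v)
  | ques φ ih => intro M w; exact forall_congr' fun v => imp_congr Iff.rfl (ih M v)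
  | reso φ ih => intro M w; exact forall_congr' fun v => imp_congr Iff.rfl (ih M v)
  | ann φ ψ ih1 ih2 =>
    intro M w
    have h := ih2 (M.announce (Sat (subst θ φ) M)) w
    refine h.trans ?_
    have e : (M.announce (Sat (subst θ φ) M)).sim.r = (fun x y => M.sim.r x y ∧
        (gs (Vs θ M.val) φ M.sim.r M.app.r x ↔ gs (Vs θ M.val) φ M.sim.r M.app.r y)) := by
      funext x y
      rw [← ih1 M x, ← ih1 M y]
      rfl
    rw [e]
    rfl
  | ask φ ψ ih1 ih2 =>
    intro M w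
    have h := ih2 (M.query (Sat (subst θ φ) M)) w
    refine h.trans ?_
    have e : (M.query (Sat (subst θ φ) M)).app.r = (fun x y => M.app.r x y ∧
        (gs (Vs θ M.val) φ M.sim.r M.app.r x ↔ gs (Vs θ M.val) φ M.sim.r M.app.r y)) := by
      funext x y
      rw [← ih1 M x, ← ih1 M y]
      rfl
    rw [e]
    rfl
  | resolve φ ih => intro M w; exact ih M.resolve w
  | refine φ ih => intro M w; exact ih M.refine w

theorem bad_of_not {φ : Form} (h : ¬ SchematicallyValid.{u} φ) : Bad (code φ) := by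
  unfold SchematicallyValid Valid at h
  push Not at h
  obtain ⟨θ, W, M, w, hw⟩ := h
  rw [sat_iff] at hw
  obtain ⟨m, hm, V', s0, a0, x, hs, ha, hx⟩ :=
    small_counter (Vs θ M.val) M.sim.iseqv M.app.iseqv φ w hw
  exact bad_of_counter φ hm V' s0 a0 x hs ha hx

/-- finite disjunctions and conjunctions -/
def bigOr : List Form → Form
  | [] => .conj (.atom 0) (.neg (.atom 0))
  | φ :: l => .neg (.conj (.neg φ) (.neg (bigOr l)))
def bigAnd : List Form → Form
  | [] => .neg (.conj (.atom 0) (.neg (.atom 0)))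
  | φ :: l => .conj φ (bigAnd l)

theorem sat_bigOr (M : Model W) (w : W) : ∀ l : List Form,
    Sat (bigOr l) M w ↔ ∃ φ ∈ l, Sat φ M w
  | [] => by simp [bigOr, Sat]
  | φ :: l => by
    have := sat_bigOr M w l
    simp only [bigOr, Sat, this, List.mem_cons, exists_eq_or_imp]
    rw [not_and_or, not_not, not_not]
theorem sat_bigAnd (M : Model W) (w : W) : ∀ l : List Form,
    Sat (bigAnd l) M w ↔ ∀ φ ∈ l, Sat φ M w
  | [] => by simp [bigAnd, Sat]
  | φ :: l => by
    have := sat_bigAnd M w l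
    simp only [bigAnd, Sat, this, List.mem_cons, forall_eq_or_imp]

/-- some world named `i` sees a world named `j` -/
def seeK (i j : ℕ) : Form :=
  .neg (.univ (.neg (.conj (.atom i) (.neg (.know (.neg (.atom j)))))))
def seeQ (i j : ℕ) : Form :=
  .neg (.univ (.neg (.conj (.atom i) (.neg (.ques (.neg (.atom j)))))))

instance (z i : ℕ) : Decidable (bit z i) := inferInstanceAs (Decidable (_ = _))
instance (z c s a w : ℕ) : Decidable (tb z c s a w) := inferInstanceAs (Decidable (bit _ _))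

/-- the pair of relations is the one coded by `s`, `a` -/
def chi (m s a : ℕ) : Form :=
  bigAnd ((List.range m).flatMap fun i => (List.range m).flatMap fun j =>
    [if bit s (i * m + j) then seeK i j else .neg (seeK i j),
      if bit a (i * m + j) then seeQ i j else .neg (seeQ i j)])

def tht (m z : ℕ) (p : ℕ) : Form :=
  bigOr ((List.range (2 ^ (m * m))).flatMap fun s => (List.range (2 ^ (m * m))).flatMap fun a =>
    (List.range m).flatMap fun i =>
      if tb z (11 * p) s a i then [Form.conj (chi m s a) (.atom i)] else [])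

abbrev UF (m : ℕ) := ULift.{u} (Fin m)

def nm (m : ℕ) : ℕ → UF.{u} m → Prop := fun i w => (w.down : ℕ) = i

/-- `t` codes the relation `r` -/
def Cds (m t : ℕ) (r : Setoid (UF.{u} m)) : Prop :=
  t < 2 ^ (m * m) ∧ ∀ x y : UF.{u} m, (bit t (x.down * m + y.down) ↔ r x y)

theorem cds_exists (m : ℕ) (r : Setoid (UF.{u} m)) : ∃ t, Cds m t r := by
  obtain ⟨t, ht, h⟩ := exists_rel m (fun x y => r (ULift.up x) (ULift.up y))
  refine ⟨t, ht, fun x y => ?_⟩
  exact Eq.to_iff (congrFun (congrFun h x.down) y.down)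

theorem bit_ext {K s t : ℕ} (hs : s < 2 ^ K) (ht : t < 2 ^ K)
    (h : ∀ i < K, (bit s i ↔ bit t i)) : s = t := by
  apply Nat.eq_of_testBit_eq
  intro i
  by_cases hi : i < K
  · have := h i hi
    unfold bit at this
    rw [Nat.testBit_eq_decide_div_mod_eq, Nat.testBit_eq_decide_div_mod_eq]
    simpa using this
  · have h1 : 2 ^ K ≤ 2 ^ i := Nat.pow_le_pow_right (by norm_num) (by omega)
    rw [Nat.testBit_lt_two_pow (lt_of_lt_of_le hs h1), Nat.testBit_lt_two_pow (lt_of_lt_of_le ht h1)]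

theorem idx_split {m k : ℕ} (h : k < m * m) : ∃ i < m, ∃ j < m, k = i * m + j := by
  have hm : 0 < m := by
    rcases Nat.eq_zero_or_pos m with h0 | h0
    · subst h0; simp at h
    · exact h0
  exact ⟨k / m, Nat.div_lt_of_lt_mul h, k % m, Nat.mod_lt _ hm, (Nat.div_add_mod' k m).symm⟩

theorem sat_seeK {m : ℕ} (S A : Setoid (UF.{u} m)) (w : UF.{u} m) (x y : UF.{u} m) :
    Sat (seeK x.down y.down) ⟨S, A, nm m⟩ w ↔ S x y := by
  simp only [seeK, Sat, nm]
  push Not
  constructor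
  · rintro ⟨v, hv, v', hv', hv''⟩
    have h1 : v = x := ULift.ext _ _ (Fin.ext hv)
    have h2 : v' = y := ULift.ext _ _ (Fin.ext hv'')
    rw [h1, h2] at hv'
    exact hv'
  · intro h
    exact ⟨x, rfl, y, h, rfl⟩
theorem sat_seeQ {m : ℕ} (S A : Setoid (UF.{u} m)) (w : UF.{u} m) (x y : UF.{u} m) :
    Sat (seeQ x.down y.down) ⟨S, A, nm m⟩ w ↔ A x y := by
  simp only [seeQ, Sat, nm]
  push Not
  constructor
  · rintro ⟨v, hv, v', hv', hv''⟩
    have h1 : v = x := ULift.ext _ _ (Fin.ext hv)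
    have h2 : v' = y := ULift.ext _ _ (Fin.ext hv'')
    rw [h1, h2] at hv'
    exact hv'
  · intro h
    exact ⟨x, rfl, y, h, rfl⟩

theorem sat_ite {M : Model W} {w : W} (c : Prop) [Decidable c] (φ : Form) :
    Sat (if c then φ else .neg φ) M w ↔ (c ↔ Sat φ M w) := by
  by_cases h : c <;> simp [h, Sat]

theorem sat_chi {m : ℕ} (S A : Setoid (UF.{u} m)) (w : UF.{u} m) {s a s' a' : ℕ}
    (hs : s < 2 ^ (m * m)) (ha : a < 2 ^ (m * m)) (hS : Cds m s' S) (hA : Cds m a' A) :
    Sat (chi m s a) ⟨S, A, nm m⟩ w ↔ s = s' ∧ a = a' := by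
  unfold chi
  rw [sat_bigAnd]
  constructor
  · intro h
    have h2 : ∀ x y : UF.{u} m, (bit s (x.down * m + y.down) ↔ S x y) ∧
        (bit a (x.down * m + y.down) ↔ A x y) := by
      intro x y
      constructor
      · rw [← sat_seeK S A w x y, ← sat_ite]
        refine h _ ?_
        simp only [List.mem_flatMap, List.mem_range]
        exact ⟨x.down, x.down.2, y.down, y.down.2, List.mem_cons_self⟩
      · rw [← sat_seeQ S A w x y, ← sat_ite]
        refine h _ ?_
        simp only [List.mem_flatMap, List.mem_range]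
        exact ⟨x.down, x.down.2, y.down, y.down.2, List.mem_cons_of_mem _ List.mem_cons_self⟩
    constructor
    · refine bit_ext hs hS.1 fun k hk => ?_
      obtain ⟨i, hi, j, hj, rfl⟩ := idx_split hk
      exact (h2 ⟨⟨i, hi⟩⟩ ⟨⟨j, hj⟩⟩).1.trans (hS.2 ⟨⟨i, hi⟩⟩ ⟨⟨j, hj⟩⟩).symm
    · refine bit_ext ha hA.1 fun k hk => ?_
      obtain ⟨i, hi, j, hj, rfl⟩ := idx_split hk
      exact (h2 ⟨⟨i, hi⟩⟩ ⟨⟨j, hj⟩⟩).2.trans (hA.2 ⟨⟨i, hi⟩⟩ ⟨⟨j, hj⟩⟩).symm
  · rintro ⟨rfl, rfl⟩ φ hφ
    simp only [List.mem_flatMap, List.mem_range] at hφ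
    obtain ⟨i, hi, j, hj, hφ⟩ := hφ
    rw [List.mem_cons, List.mem_cons] at hφ
    rcases hφ with rfl | rfl | hφ
    · rw [sat_ite]
      exact (hS.2 ⟨⟨i, hi⟩⟩ ⟨⟨j, hj⟩⟩).trans (sat_seeK S A w ⟨⟨i, hi⟩⟩ ⟨⟨j, hj⟩⟩).symm
    · rw [sat_ite]
      exact (hA.2 ⟨⟨i, hi⟩⟩ ⟨⟨j, hj⟩⟩).trans (sat_seeQ S A w ⟨⟨i, hi⟩⟩ ⟨⟨j, hj⟩⟩).symm
    · simp at hφ

theorem sat_tht {m : ℕ} (z p : ℕ) (S A : Setoid (UF.{u} m)) (w : UF.{u} m) {s a : ℕ}
    (hS : Cds m s S) (hA : Cds m a A) :
    Sat (tht m z p) ⟨S, A, nm m⟩ w ↔ tb z (11 * p) s a w.down := by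
  unfold tht
  rw [sat_bigOr]
  constructor
  · rintro ⟨φ, hφ, h⟩
    simp only [List.mem_flatMap, List.mem_range] at hφ
    obtain ⟨s', hs', a', ha', i, hi, hφ⟩ := hφ
    split_ifs at hφ with ht
    · rw [List.mem_singleton] at hφ
      subst hφ
      obtain ⟨h1, h2⟩ := h
      obtain ⟨rfl, rfl⟩ := (sat_chi S A w hs' ha' hS hA).1 h1
      have h3 : (w.down : ℕ) = i := h2
      rw [h3]; exact ht
    · simp at hφ
  · intro h
    refine ⟨.conj (chi m s a) (.atom w.down), ?_, (sat_chi S A w hS.1 hA.1 hS hA).2 ⟨rfl, rfl⟩, rfl⟩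
    simp only [List.mem_flatMap, List.mem_range]
    exact ⟨s, hS.1, a, hA.1, w.down, w.down.2, by rw [if_pos h]; exact List.mem_singleton_self _⟩

theorem tb_iff {n m z : ℕ} (hz : Corr n m z) (ψ : Form) : code ψ < n + 1 →
    ∀ (S A : Setoid (UF.{u} m)) (s a : ℕ), Cds m s S → Cds m a A → ∀ w : UF.{u} m,
    (Sat (subst (tht m z) ψ) ⟨S, A, nm m⟩ w ↔ tb z (code ψ) s a w.down) := by
  induction ψ with
  | atom p =>
    intro _ S A s a hS hA w
    exact sat_tht z p S A w hS hA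
  | neg α ih =>
    intro hc S A s a hS hA w
    have hlt : code α < n + 1 := by simp only [code] at hc; omega
    have h := (hz _ hc s hS.1 a hA.1 w.down w.down.2).1 (by simp only [code]; omega)
    have e : code α.neg / 11 = code α := by simp only [code]; omega
    rw [h, e, ← ih hlt S A s a hS hA w]
    rfl
  | conj α β ih1 ih2 =>
    intro hc S A s a hS hA w
    have h1 := Nat.left_le_pair (code α) (code β)
    have h2 := Nat.right_le_pair (code α) (code β)
    have hlt : code α < n + 1 := by simp only [code] at hc; omega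
    have hlt2 : code β < n + 1 := by simp only [code] at hc; omega
    have h := (hz _ hc s hS.1 a hA.1 w.down w.down.2).2.1 (by simp only [code]; omega)
    have e : code (α.conj β) / 11 = Nat.pair (code α) (code β) := by simp only [code]; omega
    rw [h, e, Nat.unpair_pair, ← ih1 hlt S A s a hS hA w, ← ih2 hlt2 S A s a hS hA w]
    rfl
  | univ α ih =>
    intro hc S A s a hS hA w
    have hlt : code α < n + 1 := by simp only [code] at hc; omega
    have h := (hz _ hc s hS.1 a hA.1 w.down w.down.2).2.2.1 (by simp only [code]; omega)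
    have e : code α.univ / 11 = code α := by simp only [code]; omega
    rw [h, e]
    exact ⟨fun k v hv => (ih hlt S A s a hS hA ⟨⟨v, hv⟩⟩).1 (k _),
      fun k v => (ih hlt S A s a hS hA v).2 (k v.down v.down.2)⟩
  | know α ih =>
    intro hc S A s a hS hA w
    have hlt : code α < n + 1 := by simp only [code] at hc; omega
    have h := (hz _ hc s hS.1 a hA.1 w.down w.down.2).2.2.2.1 (by simp only [code]; omega)
    have e : code α.know / 11 = code α := by simp only [code]; omega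
    rw [h, e]
    exact ⟨fun k v hv hb => (ih hlt S A s a hS hA ⟨⟨v, hv⟩⟩).1 (k _ ((hS.2 w ⟨⟨v, hv⟩⟩).1 hb)),
      fun k v hb => (ih hlt S A s a hS hA v).2 (k v.down v.down.2 ((hS.2 w v).2 hb))⟩
  | ques α ih =>
    intro hc S A s a hS hA w
    have hlt : code α < n + 1 := by simp only [code] at hc; omega
    have h := (hz _ hc s hS.1 a hA.1 w.down w.down.2).2.2.2.2.1 (by simp only [code]; omega)
    have e : code α.ques / 11 = code α := by simp only [code]; omega
    rw [h, e]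
    exact ⟨fun k v hv hb => (ih hlt S A s a hS hA ⟨⟨v, hv⟩⟩).1 (k _ ((hA.2 w ⟨⟨v, hv⟩⟩).1 hb)),
      fun k v hb => (ih hlt S A s a hS hA v).2 (k v.down v.down.2 ((hA.2 w v).2 hb))⟩
  | reso α ih =>
    intro hc S A s a hS hA w
    have hlt : code α < n + 1 := by simp only [code] at hc; omega
    have h := (hz _ hc s hS.1 a hA.1 w.down w.down.2).2.2.2.2.2.1 (by simp only [code]; omega)
    have e : code α.reso / 11 = code α := by simp only [code]; omega
    rw [h, e]
    exact ⟨fun k v hv hb => (ih hlt S A s a hS hA ⟨⟨v, hv⟩⟩).1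
        (k _ ⟨(hS.2 w ⟨⟨v, hv⟩⟩).1 hb.1, (hA.2 w ⟨⟨v, hv⟩⟩).1 hb.2⟩),
      fun k v hb => (ih hlt S A s a hS hA v).2
        (k v.down v.down.2 ⟨(hS.2 w v).2 hb.1, (hA.2 w v).2 hb.2⟩)⟩
  | ann α β ih1 ih2 =>
    intro hc S A s a hS hA w
    have h1 := Nat.left_le_pair (code α) (code β)
    have h2 := Nat.right_le_pair (code α) (code β)
    have hlt : code α < n + 1 := by simp only [code] at hc; omega
    have hlt2 : code β < n + 1 := by simp only [code] at hc; omega
    have h := (hz _ hc s hS.1 a hA.1 w.down w.down.2).2.2.2.2.2.2.1 (by simp only [code]; omega)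
    have e : code (α.ann β) / 11 = Nat.pair (code α) (code β) := by simp only [code]; omega
    rw [h, e, Nat.unpair_pair]
    have kw := fun v : UF.{u} m => ih1 hlt S A s a hS hA v
    constructor
    · intro k
      obtain ⟨t, ht⟩ := cds_exists m
        (S ⊓ agree (Sat (subst (tht m z) α) ⟨S, A, nm m⟩))
      refine ⟨t, ht.1, fun i hi j hj => ?_, (ih2 hlt2 _ A t a ht hA w).1 k⟩
      have h3 := ht.2 ⟨⟨i, hi⟩⟩ ⟨⟨j, hj⟩⟩
      rw [h3, hS.2 ⟨⟨i, hi⟩⟩ ⟨⟨j, hj⟩⟩, ← kw ⟨⟨i, hi⟩⟩, ← kw ⟨⟨j, hj⟩⟩]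
      rfl
    · rintro ⟨t, ht1, ht2, ht3⟩
      have ht : Cds m t (S ⊓ agree (Sat (subst (tht m z) α) ⟨S, A, nm m⟩)) := by
        refine ⟨ht1, fun x y => ?_⟩
        rw [ht2 x.down x.down.2 y.down y.down.2, hS.2 x y, ← kw x, ← kw y]
        rfl
      exact (ih2 hlt2 _ A t a ht hA w).2 ht3
  | ask α β ih1 ih2 =>
    intro hc S A s a hS hA w
    have h1 := Nat.left_le_pair (code α) (code β)
    have h2 := Nat.right_le_pair (code α) (code β)
    have hlt : code α < n + 1 := by simp only [code] at hc; omega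
    have hlt2 : code β < n + 1 := by simp only [code] at hc; omega
    have h := (hz _ hc s hS.1 a hA.1 w.down w.down.2).2.2.2.2.2.2.2.1
      (by simp only [code]; omega)
    have e : code (α.ask β) / 11 = Nat.pair (code α) (code β) := by simp only [code]; omega
    rw [h, e, Nat.unpair_pair]
    have kw := fun v : UF.{u} m => ih1 hlt S A s a hS hA v
    constructor
    · intro k
      obtain ⟨t, ht⟩ := cds_exists m
        (A ⊓ agree (Sat (subst (tht m z) α) ⟨S, A, nm m⟩))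
      refine ⟨t, ht.1, fun i hi j hj => ?_, (ih2 hlt2 S _ s t hS ht w).1 k⟩
      have h3 := ht.2 ⟨⟨i, hi⟩⟩ ⟨⟨j, hj⟩⟩
      rw [h3, hA.2 ⟨⟨i, hi⟩⟩ ⟨⟨j, hj⟩⟩, ← kw ⟨⟨i, hi⟩⟩, ← kw ⟨⟨j, hj⟩⟩]
      rfl
    · rintro ⟨t, ht1, ht2, ht3⟩
      have ht : Cds m t (A ⊓ agree (Sat (subst (tht m z) α) ⟨S, A, nm m⟩)) := by
        refine ⟨ht1, fun x y => ?_⟩
        rw [ht2 x.down x.down.2 y.down y.down.2, hA.2 x y, ← kw x, ← kw y]
        rfl
      exact (ih2 hlt2 S _ s t hS ht w).2 ht3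
  | resolve α ih =>
    intro hc S A s a hS hA w
    have hlt : code α < n + 1 := by simp only [code] at hc; omega
    have h := (hz _ hc s hS.1 a hA.1 w.down w.down.2).2.2.2.2.2.2.2.2.1
      (by simp only [code]; omega)
    have e : code α.resolve / 11 = code α := by simp only [code]; omega
    rw [h, e]
    constructor
    · intro k
      obtain ⟨t, ht⟩ := cds_exists m (S ⊓ A)
      refine ⟨t, ht.1, fun i hi j hj => ?_, (ih hlt _ A t a ht hA w).1 k⟩
      have h3 := ht.2 ⟨⟨i, hi⟩⟩ ⟨⟨j, hj⟩⟩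
      rw [h3, hS.2 ⟨⟨i, hi⟩⟩ ⟨⟨j, hj⟩⟩, hA.2 ⟨⟨i, hi⟩⟩ ⟨⟨j, hj⟩⟩]
      rfl
    · rintro ⟨t, ht1, ht2, ht3⟩
      have ht : Cds m t (S ⊓ A) := by
        refine ⟨ht1, fun x y => ?_⟩
        rw [ht2 x.down x.down.2 y.down y.down.2, hS.2 x y, hA.2 x y]
        rfl
      exact (ih hlt _ A t a ht hA w).2 ht3
  | refine α ih =>
    intro hc S A s a hS hA w
    have hlt : code α < n + 1 := by simp only [code] at hc; omega
    have h := (hz _ hc s hS.1 a hA.1 w.down w.down.2).2.2.2.2.2.2.2.2.2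
      (by simp only [code]; omega)
    have e : code α.refine / 11 = code α := by simp only [code]; omega
    rw [h, e]
    constructor
    · intro k
      obtain ⟨t, ht⟩ := cds_exists m (S ⊓ A)
      refine ⟨t, ht.1, fun i hi j hj => ?_, (ih hlt S _ s t hS ht w).1 k⟩
      have h3 := ht.2 ⟨⟨i, hi⟩⟩ ⟨⟨j, hj⟩⟩
      rw [h3, hS.2 ⟨⟨i, hi⟩⟩ ⟨⟨j, hj⟩⟩, hA.2 ⟨⟨i, hi⟩⟩ ⟨⟨j, hj⟩⟩]
      rfl
    · rintro ⟨t, ht1, ht2, ht3⟩
      have ht : Cds m t (S ⊓ A) := by
        refine ⟨ht1, fun x y => ?_⟩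
        rw [ht2 x.down x.down.2 y.down y.down.2, hS.2 x y, hA.2 x y]
        rfl
      exact (ih hlt S _ s t hS ht w).2 ht3

theorem not_of_bad {φ : Form} (h : Bad (code φ)) : ¬ SchematicallyValid.{u} φ := by
  obtain ⟨m, -, z, -, s, hs, a, ha, w, hw, hse, hae, hz, hn⟩ := h
  intro hv
  let S : Setoid (UF.{u} m) := ⟨fun x y => bit s (x.down * m + y.down),
    fun x => hse.1 _ x.down.2, fun {x y} h => hse.2.1 _ x.down.2 _ y.down.2 h,
    fun {x y z} h k => hse.2.2 _ x.down.2 _ y.down.2 _ z.down.2 ⟨h, k⟩⟩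
  let A : Setoid (UF.{u} m) := ⟨fun x y => bit a (x.down * m + y.down),
    fun x => hae.1 _ x.down.2, fun {x y} h => hae.2.1 _ x.down.2 _ y.down.2 h,
    fun {x y z} h k => hae.2.2 _ x.down.2 _ y.down.2 _ z.down.2 ⟨h, k⟩⟩
  have hS : Cds m s S := ⟨hs, fun x y => Iff.rfl⟩
  have hA : Cds m a A := ⟨ha, fun x y => Iff.rfl⟩
  exact hn ((tb_iff hz φ (Nat.lt_succ_self _) S A s a hS hA ⟨⟨w, hw⟩⟩).1
    (hv (tht m z) (UF.{u} m) ⟨S, A, nm m⟩ ⟨⟨w, hw⟩⟩))

/-- The set of codes of schematically valid formulas is decidable. -/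
theorem schematic_decidable : ComputablePred fun n : ℕ => ∃ φ : Form, code φ = n ∧ SchematicallyValid.{u} φ := by
  refine (primrec_Bad.not.of_eq fun n => ?_).computablePred
  obtain ⟨φ, rfl⟩ := code_surj n
  constructor
  · intro h
    refine ⟨φ, rfl, ?_⟩
    by_contra hv
    exact h (bad_of_not hv)
  · rintro ⟨ψ, he, hv⟩ hb
    rw [code_inj _ _ he] at hv
    exact not_of_bad hb hv

end sat

end Pool.Agent.Helper82.InfoIssues
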