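import Mathlib

/-!
A Jordan type theorem for finite groups of isometries of a finite dimensional normed space.
-/

set_option autoImplicit false
set_option linter.unusedSectionVars false

namespace Pool.Agent.Helper82.ScJordan

/-- If all powers of an element of finite order stay at distance at most `q < 1` from `1`, the
element is `1`. -/
theorem eq_one_of_powers_close {A : Type*} [NormedRing A] [NormedAlgebra ℝ A] (c : A) (n : ℕ)
    (hn : 0 < n) (hc : c ^ n = 1) (q : ℝ) (hq : q < 1) (h : ∀ m : ℕ, ‖c ^ m - 1‖ ≤ q) :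
    c = 1 := by
  have hn' : (n : ℝ) ≠ 0 := by positivity
  set T : A := ∑ m ∈ Finset.range n, c ^ m with hT
  have hcT : c * T = T := by
    have h1 : (c - 1) * T = 0 := by
      have := mul_geom_sum c n
      rw [hT, this, hc, sub_self]
    have h2 : c * T - T = 0 := by rw [← h1]; noncomm_ring
    exact sub_eq_zero.1 h2
  have hcmT : ∀ m : ℕ, c ^ m * T = T := by
    intro m
    induction m with
    | zero => simp
    | succ m ih => rw [pow_succ, mul_assoc, hcT, ih]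
  have hTT : T * T = (n : ℝ) • T := by
    conv_lhs => rw [hT, Finset.sum_mul]
    rw [Finset.sum_congr rfl fun m _ => hcmT m, Finset.sum_const, Finset.card_range,
      ← Nat.cast_smul_eq_nsmul ℝ]
  set P : A := (n : ℝ)⁻¹ • T with hP
  have hPP : P * P = P := by
    rw [hP, smul_mul_smul_comm, hTT, smul_smul]
    congr 1
    field_simp
  have hcP : c * P = P := by
    rw [hP, mul_smul_comm, hcT]
  have hE : (1 - P) * (1 - P) = 1 - P := by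
    have : (1 - P) * (1 - P) = 1 - P - P + P * P := by noncomm_ring
    rw [this, hPP]; noncomm_ring
  have hnorm : ‖1 - P‖ ≤ q := by
    have h1 : 1 - P = (n : ℝ)⁻¹ • ∑ m ∈ Finset.range n, (1 - c ^ m) := by
      rw [Finset.sum_sub_distrib, Finset.sum_const, Finset.card_range, smul_sub,
        ← Nat.cast_smul_eq_nsmul ℝ, smul_smul, inv_mul_cancel₀ hn', one_smul]
    rw [h1, norm_smul, norm_inv, RCLike.norm_natCast]
    have h2 : ‖∑ m ∈ Finset.range n, (1 - c ^ m)‖ ≤ ∑ m ∈ Finset.range n, q := by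
      refine (norm_sum_le _ _).trans (Finset.sum_le_sum fun m _ => ?_)
      rw [norm_sub_rev]
      exact h m
    rw [Finset.sum_const, Finset.card_range, nsmul_eq_mul] at h2
    calc (n : ℝ)⁻¹ * ‖∑ m ∈ Finset.range n, (1 - c ^ m)‖ ≤ (n : ℝ)⁻¹ * (n * q) := by gcongr
      _ = q := by field_simp
  have h0 : ‖1 - P‖ = 0 := by
    have h1 : ‖1 - P‖ ≤ ‖1 - P‖ * ‖1 - P‖ := by
      conv_lhs => rw [← hE]
      exact norm_mul_le _ _
    by_contra hne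
    have hpos : 0 < ‖1 - P‖ := lt_of_le_of_ne (norm_nonneg _) (Ne.symm hne)
    nlinarith
  have h1 : P = 1 := by
    rw [norm_eq_zero] at h0
    exact (sub_eq_zero.1 h0).symm
  rw [h1] at hcP
  simpa using hcP

section group

variable {A : Type*} [NormedRing A] [NormedAlgebra ℝ A] {G : Type*} [Group G] (ρ : G →* A)

theorem norm_comm_sub_one_le (hρ : ∀ g, ‖ρ g‖ ≤ 1) (g h : G) :
    ‖ρ (g * h * g⁻¹ * h⁻¹) - 1‖ ≤ 2 * ‖ρ g - 1‖ * ‖ρ h - 1‖ := by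
  have h1 : ρ (g * h * g⁻¹ * h⁻¹) - 1 = ((ρ g - 1) * (ρ h - 1) - (ρ h - 1) * (ρ g - 1)) *
      ρ (g⁻¹ * h⁻¹) := by
    have h2 : (ρ g - 1) * (ρ h - 1) - (ρ h - 1) * (ρ g - 1) = ρ (g * h) - ρ (h * g) := by
      rw [map_mul, map_mul]; noncomm_ring
    rw [h2, sub_mul, ← map_mul, ← map_mul]
    congr 1
    · congr 1; group
    · rw [← map_one ρ]; congr 1; group
  rw [h1]
  calc ‖((ρ g - 1) * (ρ h - 1) - (ρ h - 1) * (ρ g - 1)) * ρ (g⁻¹ * h⁻¹)‖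
      ≤ ‖(ρ g - 1) * (ρ h - 1) - (ρ h - 1) * (ρ g - 1)‖ * ‖ρ (g⁻¹ * h⁻¹)‖ := norm_mul_le _ _
    _ ≤ ‖(ρ g - 1) * (ρ h - 1) - (ρ h - 1) * (ρ g - 1)‖ * 1 := by
        gcongr; exact hρ _
    _ = ‖(ρ g - 1) * (ρ h - 1) - (ρ h - 1) * (ρ g - 1)‖ := mul_one _
    _ ≤ ‖(ρ g - 1) * (ρ h - 1)‖ + ‖(ρ h - 1) * (ρ g - 1)‖ := norm_sub_le _ _
    _ ≤ ‖ρ g - 1‖ * ‖ρ h - 1‖ + ‖ρ h - 1‖ * ‖ρ g - 1‖ := by
        gcongr <;> exact norm_mul_le _ _
    _ = 2 * ‖ρ g - 1‖ * ‖ρ h - 1‖ := by ring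

/-- `‖ρ (g h g⁻¹ h⁻¹) - 1‖ ≤ 2 ‖ρ h - 1‖`. -/
theorem norm_comm_sub_one_le' (hρ : ∀ g, ‖ρ g‖ ≤ 1) (g h : G) :
    ‖ρ (g * h * g⁻¹ * h⁻¹) - 1‖ ≤ 2 * ‖ρ h - 1‖ := by
  have h1 : ρ (g * h * g⁻¹ * h⁻¹) - 1 = (ρ g * (ρ h - 1) - (ρ h - 1) * ρ g) *
      ρ (g⁻¹ * h⁻¹) := by
    have h2 : ρ g * (ρ h - 1) - (ρ h - 1) * ρ g = ρ (g * h) - ρ (h * g) := by
      rw [map_mul, map_mul]; noncomm_ring
    rw [h2, sub_mul, ← map_mul, ← map_mul]
    congr 1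
    · congr 1; group
    · rw [← map_one ρ]; congr 1; group
  rw [h1]
  calc ‖(ρ g * (ρ h - 1) - (ρ h - 1) * ρ g) * ρ (g⁻¹ * h⁻¹)‖
      ≤ ‖ρ g * (ρ h - 1) - (ρ h - 1) * ρ g‖ * ‖ρ (g⁻¹ * h⁻¹)‖ := norm_mul_le _ _
    _ ≤ ‖ρ g * (ρ h - 1) - (ρ h - 1) * ρ g‖ * 1 := by
        gcongr; exact hρ _
    _ = ‖ρ g * (ρ h - 1) - (ρ h - 1) * ρ g‖ := mul_one _
    _ ≤ ‖ρ g * (ρ h - 1)‖ + ‖(ρ h - 1) * ρ g‖ := norm_sub_le _ _
    _ ≤ ‖ρ g‖ * ‖ρ h - 1‖ + ‖ρ h - 1‖ * ‖ρ g‖ := by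
        gcongr <;> exact norm_mul_le _ _
    _ ≤ 1 * ‖ρ h - 1‖ + ‖ρ h - 1‖ * 1 := by
        gcongr <;> exact hρ _
    _ = 2 * ‖ρ h - 1‖ := by ring

/-- Elements at distance less than `1/2` from `1` commute. -/
theorem commute_of_close (hρ : ∀ g, ‖ρ g‖ ≤ 1) (hfin : (Set.range ρ).Finite) (g h : G)
    (hg : ‖ρ g - 1‖ < 1 / 2) (hh : ‖ρ h - 1‖ < 1 / 2) : ρ g * ρ h = ρ h * ρ g := by
  by_contra hne
  -- choose `h` with `‖ρ h - 1‖` minimal
  obtain ⟨a, ha, hmin⟩ : ∃ a ∈ {a ∈ Set.range ρ | ‖a - 1‖ < 1 / 2 ∧ ρ g * a ≠ a * ρ g},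
      ∀ b ∈ {a ∈ Set.range ρ | ‖a - 1‖ < 1 / 2 ∧ ρ g * a ≠ a * ρ g}, ‖a - 1‖ ≤ ‖b - 1‖ :=
    Set.exists_min_image _ _ (hfin.subset fun a ha => ha.1) ⟨ρ h, ⟨h, rfl⟩, hh, hne⟩
  obtain ⟨⟨k, rfl⟩, hk, hgk⟩ := ha
  have hpos : 0 < ‖ρ k - 1‖ := by
    rw [norm_pos_iff]
    intro h0
    apply hgk
    rw [sub_eq_zero.1 h0]
    simp
  set c : G := g * k * g⁻¹ * k⁻¹ with hc
  have hlt : ‖ρ c - 1‖ < ‖ρ k - 1‖ := by
    have h1 := norm_comm_sub_one_le ρ hρ g k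
    have h2 : 2 * ‖ρ g - 1‖ * ‖ρ k - 1‖ < 1 * ‖ρ k - 1‖ := by
      gcongr
      linarith
    rw [hc]
    linarith
  have hgc : ρ g * ρ c = ρ c * ρ g := by
    by_contra hne'
    have := hmin (ρ c) ⟨⟨c, rfl⟩, by linarith, hne'⟩
    linarith
  -- powers of `c`
  have hinv : ρ g⁻¹ * ρ c = ρ c * ρ g⁻¹ := by
    have h1 : ρ g⁻¹ * ρ g = 1 := by rw [← map_mul]; simp
    have h2 : ρ g * ρ g⁻¹ = 1 := by rw [← map_mul]; simp
    calc ρ g⁻¹ * ρ c = ρ g⁻¹ * ρ c * (ρ g * ρ g⁻¹) := by rw [h2, mul_one]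
      _ = ρ g⁻¹ * (ρ c * ρ g) * ρ g⁻¹ := by noncomm_ring
      _ = ρ g⁻¹ * (ρ g * ρ c) * ρ g⁻¹ := by rw [hgc]
      _ = (ρ g⁻¹ * ρ g) * ρ c * ρ g⁻¹ := by noncomm_ring
      _ = ρ c * ρ g⁻¹ := by rw [h1, one_mul]
  have hpow : ∀ m : ℕ, ρ c ^ m = ρ (g ^ m * k * (g ^ m)⁻¹ * k⁻¹) := by
    intro m
    induction m with
    | zero => simp
    | succ m ih =>
      have hcg : ∀ n : ℕ, ρ (g ^ n) * ρ c = ρ c * ρ (g ^ n) := by
        intro n
        rw [map_pow]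
        exact (Commute.pow_left (show Commute (ρ g) (ρ c) from hgc) n)
      -- `c^{m+1} = g^m (k g^{-m} k^{-1}) c`, and `k g^{-m} k⁻¹ = (c⁻¹ g)^{-m}`...
      have h1 : g ^ (m + 1) * k * (g ^ (m + 1))⁻¹ * k⁻¹ =
          g ^ m * c * (k * (g ^ m)⁻¹ * k⁻¹) := by
        rw [hc, pow_succ]; group
      rw [h1, pow_succ', ih]
      rw [map_mul ρ (g ^ m * c), map_mul ρ (g ^ m) c, hcg m, ← map_mul, ← map_mul, ← map_mul]
      congr 1
      group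
  have hfo : ∃ n : ℕ, 0 < n ∧ ρ c ^ n = 1 := by
    have h1 : ∃ i j : ℕ, i ≠ j ∧ ρ c ^ i = ρ c ^ j := by
      by_contra hcon
      push Not at hcon
      have hinj : Function.Injective fun n : ℕ => ρ c ^ n := by
        intro i j hij
        by_contra hne'
        exact hcon i j hne' hij
      have hsub : Set.range (fun n : ℕ => ρ c ^ n) ⊆ Set.range ρ := by
        rintro _ ⟨n, rfl⟩
        exact ⟨c ^ n, map_pow ρ c n⟩
      exact Set.infinite_range_of_injective hinj (hfin.subset hsub)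
    obtain ⟨i, j, hij, he⟩ := h1
    wlog hlt' : i < j generalizing i j
    · exact this j i hij.symm he.symm (lt_of_le_of_ne (not_lt.1 hlt') hij.symm)
    refine ⟨j - i, by omega, ?_⟩
    have h2 : ρ c ^ (j - i) = ρ (c ^ i)⁻¹ * ρ c ^ j := by
      rw [← map_pow, ← map_pow, ← map_mul]
      congr 1
      rw [eq_inv_mul_iff_mul_eq, ← pow_add]
      congr 1
      omega
    rw [h2, ← he, ← map_pow, ← map_mul]
    simp
  obtain ⟨n, hn, hcn⟩ := hfo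
  have hone : ρ c = 1 := by
    refine eq_one_of_powers_close (ρ c) n hn hcn (2 * ‖ρ k - 1‖) (by linarith) fun m => ?_
    rw [hpow m]
    exact norm_comm_sub_one_le' ρ hρ _ _
  apply hgk
  have h3 : g * k = c * (k * g) := by rw [hc]; group
  rw [← map_mul, h3, map_mul, hone, one_mul, map_mul]

/-- The subgroup generated by the elements acting close to the identity. -/
def near : Subgroup G := Subgroup.normalClosure {g | ‖ρ g - 1‖ < 1 / 2}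

instance near_normal : (near ρ).Normal := Subgroup.normalClosure_normal

theorem near_eq (hρ : ∀ g, ‖ρ g‖ ≤ 1) :
    near ρ = Subgroup.closure {g | ‖ρ g - 1‖ < 1 / 2} := by
  unfold near Subgroup.normalClosure
  congr 1
  refine Set.Subset.antisymm ?_ Group.subset_conjugatesOfSet
  intro g hg
  rw [Group.mem_conjugatesOfSet_iff] at hg
  obtain ⟨a, ha, hag⟩ := hg
  obtain ⟨c, rfl⟩ := isConj_iff.1 hag
  simp only [Set.mem_setOf_eq] at ha ⊢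
  have h1 : ρ (c * a * c⁻¹) - 1 = ρ c * (ρ a - 1) * ρ c⁻¹ := by
    rw [mul_sub, sub_mul, mul_one, ← map_mul, ← map_mul, ← map_mul]
    simp
  rw [h1]
  calc ‖ρ c * (ρ a - 1) * ρ c⁻¹‖ ≤ ‖ρ c * (ρ a - 1)‖ * ‖ρ c⁻¹‖ := norm_mul_le _ _
    _ ≤ (‖ρ c‖ * ‖ρ a - 1‖) * ‖ρ c⁻¹‖ := by gcongr; exact norm_mul_le _ _
    _ ≤ (1 * ‖ρ a - 1‖) * 1 := by gcongr <;> exact hρ _
    _ = ‖ρ a - 1‖ := by ring
    _ < 1 / 2 := ha

theorem near_commute (hρ : ∀ g, ‖ρ g‖ ≤ 1) (hfin : (Set.range ρ).Finite) {g h : G}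
    (hg : g ∈ near ρ) (hh : h ∈ near ρ) : ρ g * ρ h = ρ h * ρ g := by
  rw [near_eq ρ hρ] at hg hh
  have hinv : ∀ a b : G, ρ a * ρ b = ρ b * ρ a → ρ a⁻¹ * ρ b = ρ b * ρ a⁻¹ := by
    intro a b hab
    have h1 : ρ a⁻¹ * ρ a = 1 := by rw [← map_mul]; simp
    have h2 : ρ a * ρ a⁻¹ = 1 := by rw [← map_mul]; simp
    calc ρ a⁻¹ * ρ b = ρ a⁻¹ * ρ b * (ρ a * ρ a⁻¹) := by rw [h2, mul_one]
      _ = ρ a⁻¹ * (ρ b * ρ a) * ρ a⁻¹ := by noncomm_ring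
      _ = ρ a⁻¹ * (ρ a * ρ b) * ρ a⁻¹ := by rw [hab]
      _ = (ρ a⁻¹ * ρ a) * ρ b * ρ a⁻¹ := by noncomm_ring
      _ = ρ b * ρ a⁻¹ := by rw [h1, one_mul]
  have key : ∀ b : G, (∀ a ∈ {g : G | ‖ρ g - 1‖ < 1 / 2}, ρ a * ρ b = ρ b * ρ a) →
      ∀ a ∈ Subgroup.closure {g : G | ‖ρ g - 1‖ < 1 / 2}, ρ a * ρ b = ρ b * ρ a := by
    intro b hb a ha
    induction ha using Subgroup.closure_induction with
    | mem x hx => exact hb x hx
    | one => simp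
    | mul x y _ _ hx hy => rw [map_mul, mul_assoc, hy, ← mul_assoc, hx, mul_assoc]
    | inv x _ hx => exact hinv x b hx
  refine key h (fun a ha => ?_) g hg
  refine (key a (fun b hb => ?_) h hh).symm
  exact commute_of_close ρ hρ hfin b a hb ha

theorem near_index [FiniteDimensional ℝ A] (hρ : ∀ g, ‖ρ g‖ ≤ 1) :
    (near ρ).index ≠ 0 ∧ (near ρ).index ≤ 5 ^ Module.finrank ℝ A := by
  classical
  have hsep : ∀ g h : G, (g : G ⧸ near ρ) ≠ h → 1 ≤ ‖(2 : ℝ) • ρ g - (2 : ℝ) • ρ h‖ := by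
    intro g h hne
    by_contra hlt
    push Not at hlt
    apply hne
    rw [QuotientGroup.eq, near_eq ρ hρ]
    apply Subgroup.subset_closure
    rw [← smul_sub, norm_smul, Real.norm_eq_abs, abs_of_pos (by norm_num : (0 : ℝ) < 2)] at hlt
    have h1 : ρ (g⁻¹ * h) - 1 = -(ρ g⁻¹ * (ρ g - ρ h)) := by
      rw [mul_sub, ← map_mul, ← map_mul]; simp
    show ‖ρ (g⁻¹ * h) - 1‖ < 1 / 2
    rw [h1, norm_neg]
    calc ‖ρ g⁻¹ * (ρ g - ρ h)‖ ≤ ‖ρ g⁻¹‖ * ‖ρ g - ρ h‖ := norm_mul_le _ _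
      _ ≤ 1 * ‖ρ g - ρ h‖ := by gcongr; exact hρ _
      _ < 1 / 2 := by linarith
  have hcard : ∀ t : Finset (G ⧸ near ρ), t.card ≤ 5 ^ Module.finrank ℝ A := by
    intro t
    have hsep' : ∀ q q' : G ⧸ near ρ, q ≠ q' →
        1 ≤ ‖(2 : ℝ) • ρ q.out - (2 : ℝ) • ρ q'.out‖ := by
      intro q q' hqq
      apply hsep
      rw [QuotientGroup.out_eq', QuotientGroup.out_eq']
      exact hqq
    have hinj : Set.InjOn (fun q : G ⧸ near ρ => (2 : ℝ) • ρ q.out) t := by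
      intro q _ q' _ hqq
      by_contra hne
      have h1 := hsep' q q' hne
      simp only at hqq
      rw [hqq, sub_self, norm_zero] at h1
      linarith
    rw [← Finset.card_image_of_injOn hinj]
    apply Besicovitch.card_le_of_separated
    · intro c hc
      obtain ⟨q, _, rfl⟩ := Finset.mem_image.1 hc
      rw [norm_smul, Real.norm_eq_abs, abs_of_pos (by norm_num : (0 : ℝ) < 2)]
      have := hρ q.out
      linarith
    · intro c hc d hd hcd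
      obtain ⟨q, _, rfl⟩ := Finset.mem_image.1 hc
      obtain ⟨q', _, rfl⟩ := Finset.mem_image.1 hd
      apply hsep'
      rintro rfl
      exact hcd rfl
  have hfin : Finite (G ⧸ near ρ) := by
    by_contra hinf
    rw [not_finite_iff_infinite] at hinf
    obtain ⟨t, ht⟩ := Infinite.exists_subset_card_eq (G ⧸ near ρ) (5 ^ Module.finrank ℝ A + 1)
    have := hcard t
    omega
  refine ⟨?_, ?_⟩
  · exact Nat.card_ne_zero.2 ⟨⟨((1 : G) : G ⧸ near ρ)⟩, hfin⟩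
  · haveI := Fintype.ofFinite (G ⧸ near ρ)
    have := hcard Finset.univ
    rwa [Finset.card_univ, ← Nat.card_eq_fintype_card] at this

end group

end Pool.Agent.Helper82.ScJordan
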