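import Mathlib

/-!
Characters of a commuting family of operators of finite order.
-/

set_option autoImplicit false

namespace Pool.Agent.Helper82.ScJordan

open Module

theorem span_joint_eigenvectors {V : Type*} [AddCommGroup V] [Module ℂ V] [FiniteDimensional ℂ V]
    {K : Type*} [Group K] (ρ : K →* Module.End ℂ V) (hcomm : ∀ g h, ρ g * ρ h = ρ h * ρ g)
    (hfo : ∀ g, ∃ n : ℕ, 0 < n ∧ ρ g ^ n = 1) :
    Submodule.span ℂ {v : V | ∃ c : K → ℂ, ∀ g, ρ g v = c g • v} = ⊤ := by
  have hss : ∀ g, (ρ g).IsSemisimple := by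
    intro g
    obtain ⟨n, hn, hg⟩ := hfo g
    refine Module.End.isSemisimple_of_squarefree_aeval_eq_zero
      (p := (Polynomial.X ^ n - 1 : Polynomial ℂ)) ?_ ?_
    · have h1 : (Polynomial.X ^ n - 1 : Polynomial ℂ).Separable :=
        Polynomial.separable_X_pow_sub_C (1 : ℂ) (by exact_mod_cast hn.ne') one_ne_zero
      exact h1.squarefree
    · simp [hg]
  have htop := Module.End.iSup_iInf_maxGenEigenspace_eq_top_of_iSup_maxGenEigenspace_eq_top_of_commute
    (fun g : K => ρ g) (fun g h _ => hcomm g h)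
    (fun g => Module.End.iSup_maxGenEigenspace_eq_top (ρ g))
  rw [eq_top_iff, ← htop]
  refine iSup_le fun c => ?_
  intro v hv
  apply Submodule.subset_span
  refine ⟨c, fun g => ?_⟩
  rw [Submodule.mem_iInf] at hv
  have h1 := hv g
  rw [(hss g).isFinitelySemisimple.maxGenEigenspace_eq_eigenspace] at h1
  exact Module.End.mem_eigenspace_iff.1 h1

theorem exists_chars {V : Type*} [AddCommGroup V] [Module ℂ V] [FiniteDimensional ℂ V]
    {K : Type*} [Group K] (ρ : K →* Module.End ℂ V) (hcomm : ∀ g h, ρ g * ρ h = ρ h * ρ g)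
    (hfo : ∀ g, ∃ n : ℕ, 0 < n ∧ ρ g ^ n = 1) (d : ℕ) (hd : finrank ℂ V ≤ d) :
    ∃ χ : Fin d → (K →* ℂˣ), (∀ i k, IsOfFinOrder (χ i k)) ∧
      ∀ k, (∀ i, χ i k = 1) → ρ k = 1 := by
  classical
  have hspan := span_joint_eigenvectors ρ hcomm hfo
  obtain ⟨b, hbS, hbspan, hbli⟩ := exists_linearIndependent ℂ
    {v : V | ∃ c : K → ℂ, ∀ g, ρ g v = c g • v}
  have hbtop : ⊤ ≤ Submodule.span ℂ (Set.range (Subtype.val : b → V)) := by
    rw [Subtype.range_coe, hbspan, hspan]
  let B : Basis b ℂ V := Basis.mk hbli hbtop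
  have hfb : Finite b := Module.Finite.finite_basis B
  haveI : Fintype b := Fintype.ofFinite b
  have hcard : Fintype.card b ≤ Fintype.card (Fin d) := by
    rw [Fintype.card_fin, ← Module.finrank_eq_card_basis B]
    exact hd
  obtain ⟨e⟩ := Function.Embedding.nonempty_of_card_le hcard
  have hchar : ∀ v : b, ∃ ψ : K →* ℂˣ, (∀ g, ρ g (v : V) = (ψ g : ℂ) • (v : V)) := by
    intro v
    obtain ⟨c, hc⟩ := hbS v.2
    have hv : (v : V) ≠ 0 := hbli.ne_zero v
    let f : K →* ℂ :=
      { toFun := c
        map_one' := by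
          have h1 := hc 1
          rw [map_one] at h1
          have h2 : (c 1 - 1) • (v : V) = 0 := by
            rw [sub_smul, ← h1, one_smul]; simp
          rcases smul_eq_zero.1 h2 with h3 | h3
          · exact sub_eq_zero.1 h3
          · exact absurd h3 hv
        map_mul' := by
          intro g h
          have h1 := hc (g * h)
          rw [map_mul, Module.End.mul_apply, hc h, map_smul, hc g, smul_smul] at h1
          have h2 : (c (g * h) - c g * c h) • (v : V) = 0 := by
            rw [sub_smul, ← h1, mul_comm (c h)]; simp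
          rcases smul_eq_zero.1 h2 with h3 | h3
          · exact sub_eq_zero.1 h3
          · exact absurd h3 hv }
    exact ⟨f.toHomUnits, fun g => hc g⟩
  choose ψ hψ using hchar
  refine ⟨fun i => if h : ∃ v : b, e v = i then ψ h.choose else 1, ?_, ?_⟩
  · intro i k
    by_cases h : ∃ v : b, e v = i
    · simp only [dif_pos h]
      obtain ⟨n, hn, hk⟩ := hfo k
      rw [isOfFinOrder_iff_pow_eq_one]
      refine ⟨n, hn, ?_⟩
      set v := h.choose
      have hv : (v : V) ≠ 0 := hbli.ne_zero v
      have h1 : ρ (k ^ n) (v : V) = (v : V) := by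
        rw [map_pow, hk]; simp
      rw [hψ v, map_pow] at h1
      have h2 : ((((ψ v k) ^ n : ℂˣ) : ℂ) - 1) • (v : V) = 0 := by
        rw [sub_smul, h1, one_smul, sub_self]
      rcases smul_eq_zero.1 h2 with h3 | h3
      · exact Units.ext (sub_eq_zero.1 h3)
      · exact absurd h3 hv
    · simp only [dif_neg h]
      simp
  · intro k hk
    refine B.ext fun v => ?_
    have hv : B v = (v : V) := by simp [B]
    rw [hv]
    have h1 := hk (e v)
    have h : ∃ w : b, e w = e v := ⟨v, rfl⟩
    simp only [dif_pos h] at h1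
    have h2 : h.choose = v := e.injective h.choose_spec
    rw [h2] at h1
    rw [hψ v k, h1]
    simp

end Pool.Agent.Helper82.ScJordan
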