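import Pool.Agent.Helper82.ScJordan1
import Pool.Agent.Helper82.ScJordan2

/-!
Jordan type theorem for groups acting by isometries through a finite group.
-/

set_option autoImplicit false

namespace Pool.Agent.Helper82.ScJordan

open Module

theorem jordan_isometric {V : Type*} [NormedAddCommGroup V] [NormedSpace ℂ V]
    [FiniteDimensional ℂ V] {G : Type*} [Group G] [Finite G] (ρ : G →* (V →L[ℂ] V))
    (hρ : ∀ g, ‖ρ g‖ ≤ 1) (d : ℕ) (hd : finrank ℂ V ≤ d) :
    ∃ K : Subgroup G, K.Normal ∧ K.index ≠ 0 ∧ K.index ≤ 5 ^ (2 * (d * d)) ∧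
      ∃ χ : Fin d → (K →* ℂˣ), (∀ i k, IsOfFinOrder (χ i k)) ∧
        ∀ k : K, (∀ i, χ i k = 1) → ρ k = 1 := by
  have hfin : (Set.range ρ).Finite := Set.finite_range ρ
  haveI : FiniteDimensional ℂ (V →L[ℂ] V) := inferInstance
  letI : NormedAlgebra ℝ (V →L[ℂ] V) := NormedAlgebra.restrictScalars ℝ ℂ _
  haveI hfd : FiniteDimensional ℝ (V →L[ℂ] V) := FiniteDimensional.complexToReal _
  have hdim : finrank ℝ (V →L[ℂ] V) ≤ 2 * (d * d) := by
    have h1 : finrank ℝ (V →L[ℂ] V) = 2 * finrank ℂ (V →L[ℂ] V) := finrank_real_of_complex _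
    have h2 : finrank ℂ (V →L[ℂ] V) = finrank ℂ V * finrank ℂ V := by
      rw [← Module.finrank_linearMap ℂ ℂ V V]
      exact (LinearMap.toContinuousLinearMap (𝕜 := ℂ) (E := V) (F' := V)).symm.finrank_eq
    rw [h1, h2]
    gcongr
  obtain ⟨h0, hle⟩ := near_index (A := V →L[ℂ] V) ρ hρ
  refine ⟨near ρ, inferInstance, h0, hle.trans (Nat.pow_le_pow_right (by norm_num) hdim), ?_⟩
  let σ : (V →L[ℂ] V) →* Module.End ℂ V :=
    { toFun := fun f => (f : V →ₗ[ℂ] V)
      map_one' := rfl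
      map_mul' := fun _ _ => rfl }
  obtain ⟨χ, h1, h2⟩ := exists_chars (K := near ρ) ((σ.comp ρ).comp (near ρ).subtype)
    (fun g h => by
      have := near_commute ρ hρ hfin g.2 h.2
      show σ (ρ g) * σ (ρ h) = σ (ρ h) * σ (ρ g)
      rw [← map_mul, this, map_mul])
    (fun g => by
      refine ⟨orderOf g, orderOf_pos g, ?_⟩
      rw [← map_pow, pow_orderOf_eq_one, map_one]) d hd
  refine ⟨χ, h1, fun k hk => ?_⟩
  have h3 := h2 k hk
  ext v
  exact congrArg (fun f : Module.End ℂ V => f v) h3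

end Pool.Agent.Helper82.ScJordan
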