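import Pool.Agent.Helper82.ACC.Main

/-!
# Majority needs superlinearly many wires in constant depth with MOD_m gates
-/

set_option autoImplicit false

namespace Pool.Agent.Results.MP_3586ff_lc.SuperlinearWires

open Pool.Agent.Helper82.ACC Pool.Agent.Helper82.ACC.Circuit

/-- Let `m ≥ 2` be an arbitrary modulus. Circuits of bounded depth with NOT, AND, OR and
(generalized) MOD_m gates of unbounded fan-in and arbitrary gates of bounded fan-in that compute
the majority of their `n` variables have more than `C * n` wires, for every constant `C` and all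
sufficiently large `n`. -/
theorem result (m r d C : ℕ) (hm : 2 ≤ m) :
    ∃ n₀ : ℕ, ∀ n ≥ n₀, ∀ (s : ℕ) (K : Circuit n s), K.Legal m r → (∀ g, K.level g < d) →
      K.Computes (fun x => n ≤ 2 * (Finset.univ.filter fun i => x i = true).card) →
      C * n < K.wires := by
  obtain ⟨B, hB⟩ := exists_sep C r d fun q => 4 * (m ^ 2 + 2) * q
  refine ⟨12 * (B + 1), fun n hn s K hK hL hc => ?_⟩
  by_contra hcon
  push Not at hcon
  obtain ⟨q, hqB, H, I, hnI, hHn, hS, hH⟩ := hB n s K hcon
  refine core hm hK hL hS hH ?_ hc
  have hq : 0 < q := by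
    rcases Nat.eq_zero_or_pos q with h | h
    · subst h; omega
    · exact h
  have h1 : 4 * (m ^ 2 + 2) * H.card ≤ I.card := by
    have h2 : q * (4 * (m ^ 2 + 2) * H.card) ≤ q * I.card := by
      calc q * (4 * (m ^ 2 + 2) * H.card) = H.card * (4 * (m ^ 2 + 2) * q) := by ring
        _ ≤ n := hHn
        _ ≤ q * I.card := hnI
    exact Nat.le_of_mul_le_mul_left h2 hq
  have h3 : 12 ≤ I.card := by
    by_contra h4
    push Not at h4
    have h5 : q * I.card ≤ B * 11 := Nat.mul_le_mul hqB (by omega)
    omega
  have h6 : 2 * (2 * (m ^ 2 + 2) * H.card) = 4 * (m ^ 2 + 2) * H.card := by ring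
  omega

end Pool.Agent.Results.MP_3586ff_lc.SuperlinearWires
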